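import Mathlib

/-!
The Cauchy-Schwarz count.

PROOF. For every `c ∈ T` choose `(w, e, X)`. For a key `(b, w, e) ∈ B × Ω × {2, 3}` let `r` be the number of
`a` with `(a, b) ∈ T` and chosen `(w, e)`. `|T| = sum r`, so `|T|^2 ≤ |B| * 2 |Ω| * sum r^2`
(`sq_sum_le_card_mul_sum_sq`, or `Finset.card_eq_sum_card_fiberwise`). `sum r^2` = number of pairs
`((a, b), (a', b))` in `T × T` with the same key. Those with `f a = f a'`: at most `|A| * F * |B|`.
Those with `f a ≠ f a'`: `f a - f a' = w (X^e - X'^e)`; say `X > X'`, `d = X - X'`. The data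
`(a, a', w, d, e)` determine `X` (`X ↦ X^e - (X - d)^e` is strictly increasing), so `g b = f a - w X^e`,
so `b` up to `F` choices; `w` and `d` divide `|f a - f a'| ≤ N`. The sign of `X - X'` is the sign of
`f a - f a'`. So at most `|A|^2 * τ^2 * 2 * F`.
-/

namespace Pool.Agent.Helper44.FB

open Finset

private theorem CC_mono {x y d e : ℕ} (hxy : x < y) (hd : 1 ≤ d) (he : e = 2 ∨ e = 3) :
    (x + d) ^ e + y ^ e < (y + d) ^ e + x ^ e := by
  obtain ⟨t, rfl⟩ := Nat.exists_eq_add_of_lt hxy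
  obtain ⟨s, rfl⟩ := Nat.exists_eq_add_of_le hd
  rcases he with rfl | rfl
  · nlinarith [Nat.zero_le (x * s), Nat.zero_le (t * s), Nat.zero_le (x * t)]
  · have h1 : (x + t + 1 + (1 + s)) ^ 3 + x ^ 3 = (x + (1 + s)) ^ 3 + (x + t + 1) ^ 3 +
        3 * (1 + s) * (t + 1) * ((x + t + 1) + x + (1 + s)) := by ring
    have h2 : 0 < 3 * (1 + s) * (t + 1) * ((x + t + 1) + x + (1 + s)) := by positivity
    omega

private theorem CC_num {w e X X' t u v : ℕ} (hw : 1 ≤ w) (hu : u = t + w * X ^ e)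
    (hv : v = t + w * X' ^ e) (huv : v < u) : X' < X ∧ w ∣ u - v ∧ (X - X') ∣ u - v := by
  have h1 : u - v = w * (X ^ e - X' ^ e) := by
    rw [hu, hv, Nat.add_sub_add_left, Nat.mul_sub]
  refine ⟨?_, ?_, ?_⟩
  · by_contra hcon
    have h2 : X ^ e ≤ X' ^ e := Nat.pow_le_pow_left (not_lt.1 hcon) e
    have h3 : w * X ^ e ≤ w * X' ^ e := Nat.mul_le_mul_left w h2
    omega
  · rw [h1]; exact dvd_mul_right _ _
  · rw [h1]; exact dvd_mul_of_dvd_right (Nat.sub_dvd_pow_sub_pow X X' e) w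

private theorem CC_uniq {w e X₁ X₁' X₂ X₂' t₁ t₂ u v : ℕ} (hw : 1 ≤ w) (he : e = 2 ∨ e = 3)
    (h1 : u = t₁ + w * X₁ ^ e) (h1' : v = t₁ + w * X₁' ^ e)
    (h2 : u = t₂ + w * X₂ ^ e) (h2' : v = t₂ + w * X₂' ^ e)
    (hX₁ : X₁' < X₁) (hX₂ : X₂' < X₂) (hd : X₁ - X₁' = X₂ - X₂') : t₁ = t₂ := by
  obtain ⟨d, hd0⟩ : ∃ d, d = X₁ - X₁' := ⟨_, rfl⟩
  have hd1 : 1 ≤ d := by omega
  have e1 : X₁ = X₁' + d := by omega
  have e2 : X₂ = X₂' + d := by omega
  have h3 : w * ((X₁' + d) ^ e + X₂' ^ e) = w * ((X₂' + d) ^ e + X₁' ^ e) := by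
    rw [e1] at h1
    rw [e2] at h2
    rw [Nat.mul_add, Nat.mul_add]
    omega
  have h4 : (X₁' + d) ^ e + X₂' ^ e = (X₂' + d) ^ e + X₁' ^ e :=
    Nat.eq_of_mul_eq_mul_left (by omega) h3
  have h5 : X₁' = X₂' := by
    rcases lt_trichotomy X₁' X₂' with hlt | heq | hgt
    · have := CC_mono hlt hd1 he
      omega
    · exact heq
    · have := CC_mono hgt hd1 he
      omega
  rw [h5] at h1'
  omega

private theorem CC_sum_sq {γ κ : Type*} [DecidableEq γ] [DecidableEq κ] (T : Finset γ)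
    (K : Finset κ) (key : γ → κ) (hkey : ∀ c ∈ T, key c ∈ K) :
    T.card ^ 2 ≤ K.card * ((T ×ˢ T).filter (fun c => key c.1 = key c.2)).card := by
  have h1 : T.card = ∑ k ∈ K, (T.filter fun c => key c = k).card :=
    Finset.card_eq_sum_card_fiberwise hkey
  have h2 : ((T ×ˢ T).filter (fun c => key c.1 = key c.2)).card =
      ∑ k ∈ K, (T.filter fun c => key c = k).card ^ 2 := by
    rw [Finset.card_eq_sum_card_fiberwise (f := fun c : γ × γ => key c.1) (t := K)]
    · refine Finset.sum_congr rfl fun k _ => ?_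
      rw [sq, ← Finset.card_product]
      congr 1
      ext ⟨c, c'⟩
      simp only [Finset.mem_filter, Finset.mem_product]
      constructor
      · rintro ⟨⟨⟨h1, h2⟩, h3⟩, h4⟩
        exact ⟨⟨h1, h4⟩, ⟨h2, h3 ▸ h4⟩⟩
      · rintro ⟨⟨h1, h2⟩, ⟨h3, h4⟩⟩
        exact ⟨⟨⟨h1, h3⟩, h2.trans h4.symm⟩, h2⟩
    · intro c hc
      have hc' := Finset.mem_coe.1 hc
      rw [Finset.mem_filter, Finset.mem_product] at hc'
      exact hkey _ hc'.1.1
  rw [h2]
  conv_lhs => rw [h1]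
  exact sq_sum_le_card_mul_sum_sq

theorem cauchy_count {α β : Type} [DecidableEq α] [DecidableEq β] (A : Finset α) (B : Finset β)
    (f : α → ℕ) (g : β → ℕ) (F τ N : ℕ) (Ω : Finset ℕ) (T : Finset (α × β))
    (hT : T ⊆ A ×ˢ B) (hf : ∀ t, (A.filter (fun a => f a = t)).card ≤ F)
    (hg : ∀ t, (B.filter (fun b => g b = t)).card ≤ F) (hN : ∀ a ∈ A, f a ≤ N)
    (hτ : ∀ D, 1 ≤ D → D ≤ N → D.divisors.card ≤ τ) (hΩ : ∀ w ∈ Ω, 1 ≤ w)
    (h : ∀ c ∈ T, ∃ w ∈ Ω, ∃ e ∈ ({2, 3} : Finset ℕ), ∃ X : ℕ, 1 ≤ X ∧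
      f c.1 = g c.2 + w * X ^ e) :
    T.card ^ 2 ≤ B.card * (2 * Ω.card) * (F * A.card * (B.card + 2 * A.card * τ ^ 2)) := by
  classical
  choose! w hw e he X hX1 hX using h
  have he' : ∀ c ∈ T, e c = 2 ∨ e c = 3 := fun c hc => by
    have := he c hc
    simpa only [Finset.mem_insert, Finset.mem_singleton] using this
  have hTA : ∀ c ∈ T, c.1 ∈ A ∧ c.2 ∈ B := fun c hc => Finset.mem_product.1 (hT hc)
  obtain ⟨key, hkeyd⟩ : ∃ key : α × β → β × (ℕ × ℕ), key = fun c => (c.2, (w c, e c)) := ⟨_, rfl⟩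
  have hkey : ∀ c ∈ T, key c ∈ B ×ˢ (Ω ×ˢ ({2, 3} : Finset ℕ)) := fun c hc => by
    rw [hkeyd]
    exact Finset.mem_product.2 ⟨(hTA c hc).2, Finset.mem_product.2 ⟨hw c hc, he c hc⟩⟩
  have hK : (B ×ˢ (Ω ×ˢ ({2, 3} : Finset ℕ))).card = B.card * (2 * Ω.card) := by
    rw [Finset.card_product, Finset.card_product]
    have : ({2, 3} : Finset ℕ).card = 2 := by decide
    rw [this, mul_comm Ω.card]
  have h1 := CC_sum_sq T (B ×ˢ (Ω ×ˢ ({2, 3} : Finset ℕ))) key hkey
  rw [hK] at h1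
  refine h1.trans (Nat.mul_le_mul_left _ ?_)
  have hkeq : ∀ c c' : α × β, key c = key c' → c.2 = c'.2 ∧ w c = w c' ∧ e c = e c' := by
    intro c c' hcc
    rw [hkeyd] at hcc
    simp only [Prod.mk.injEq] at hcc
    exact hcc
  obtain ⟨P, hPd⟩ : ∃ P, P = (T ×ˢ T).filter (fun c => key c.1 = key c.2) := ⟨_, rfl⟩
  rw [← hPd]
  have hP : ∀ p ∈ P, p.1 ∈ T ∧ p.2 ∈ T ∧ p.1.2 = p.2.2 ∧ w p.1 = w p.2 ∧ e p.1 = e p.2 := by
    intro p hp
    rw [hPd, Finset.mem_filter, Finset.mem_product] at hp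
    obtain ⟨h3, h4, h5⟩ := hkeq _ _ hp.2
    exact ⟨hp.1.1, hp.1.2, h3, h4, h5⟩
  have hsplit : P.card = (P.filter fun p => f p.1.1 = f p.2.1).card +
      (P.filter fun p => ¬ f p.1.1 = f p.2.1).card :=
    (Finset.card_filter_add_card_filter_not _).symm
  -- equal values
  have h0 : (P.filter fun p => f p.1.1 = f p.2.1).card ≤ F * (A.card * B.card) := by
    rw [← Finset.card_product]
    refine Finset.card_le_mul_card_image_of_maps_to (f := fun p : (α × β) × (α × β) => p.1)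
      (fun p hp => ?_) F (fun c _ => ?_)
    · rw [Finset.mem_filter] at hp
      exact hT (hP p hp.1).1
    · refine le_trans ?_ (hf (f c.1))
      refine Finset.card_le_card_of_injOn (fun p => p.2.1) ?_ ?_
      · intro p hp
        have hp' := Finset.mem_coe.1 hp
        rw [Finset.mem_filter, Finset.mem_filter] at hp'
        obtain ⟨⟨hp1, hp2⟩, hp3⟩ := hp'
        refine Finset.mem_coe.2 (Finset.mem_filter.2 ⟨(hTA _ (hP p hp1).2.1).1, ?_⟩)
        rw [← hp2, hp3]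
      · intro p hp p' hp' hpp
        have hp1 := Finset.mem_coe.1 hp
        have hp2 := Finset.mem_coe.1 hp'
        rw [Finset.mem_filter, Finset.mem_filter] at hp1 hp2
        have e1 := (hP p hp1.1.1).2.2.1
        have e2 := (hP p' hp2.1.1).2.2.1
        have e3 : p.1 = p'.1 := hp1.2.trans hp2.2.symm
        refine Prod.ext e3 (Prod.ext hpp ?_)
        rw [← e1, ← e2, e3]
  -- different values
  have h2 : (P.filter fun p => ¬ f p.1.1 = f p.2.1).card ≤ (F * (2 * τ ^ 2)) * (A.card * A.card) := by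
    rw [← Finset.card_product]
    refine Finset.card_le_mul_card_image_of_maps_to
      (f := fun p : (α × β) × (α × β) => (p.1.1, p.2.1)) (fun p hp => ?_) _ (fun c _ => ?_)
    · rw [Finset.mem_filter] at hp
      exact Finset.mem_product.2 ⟨(hTA _ (hP p hp.1).1).1, (hTA _ (hP p hp.1).2.1).1⟩
    · obtain ⟨Q, hQd⟩ : ∃ Q, Q = (P.filter fun p => ¬ f p.1.1 = f p.2.1).filter
        (fun p => (p.1.1, p.2.1) = c) := ⟨_, rfl⟩
      rw [← hQd]
      have hQ : ∀ p ∈ Q, p ∈ P ∧ f p.1.1 ≠ f p.2.1 ∧ p.1.1 = c.1 ∧ p.2.1 = c.2 := by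
        intro p hp
        rw [hQd, Finset.mem_filter, Finset.mem_filter] at hp
        exact ⟨hp.1.1, hp.1.2, congrArg Prod.fst hp.2, congrArg Prod.snd hp.2⟩
      -- the equations
      have hE : ∀ p ∈ Q, f c.1 = g p.1.2 + w p.1 * X p.1 ^ e p.1 ∧
          f c.2 = g p.1.2 + w p.1 * X p.2 ^ e p.1 := by
        intro p hp
        obtain ⟨hp1, hp2, hp3, hp4⟩ := hQ p hp
        obtain ⟨q1, q2, q3, q4, q5⟩ := hP p hp1
        refine ⟨?_, ?_⟩
        · rw [← hp3]; exact hX _ q1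
        · rw [← hp4, q3, q4, q5]; exact hX _ q2
      by_cases hne : Q = ∅
      · rw [hne, Finset.card_empty]; exact Nat.zero_le _
      obtain ⟨p0, hp0⟩ := Finset.nonempty_iff_ne_empty.2 hne
      obtain ⟨hp0P, hfne, hc1, hc2⟩ := hQ p0 hp0
      rw [hc1, hc2] at hfne
      have hA1 : c.1 ∈ A := by rw [← hc1]; exact (hTA _ (hP p0 hp0P).1).1
      have hA2 : c.2 ∈ A := by rw [← hc2]; exact (hTA _ (hP p0 hp0P).2.1).1
      obtain ⟨D, hDd⟩ : ∃ D, D = (f c.1 - f c.2) + (f c.2 - f c.1) := ⟨_, rfl⟩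
      have hD1 : 1 ≤ D := by omega
      have hDN : D ≤ N := by have := hN _ hA1; have := hN _ hA2; omega
      have hDne : D ≠ 0 := by omega
      have hdiv : ∀ p ∈ Q, w p.1 ∣ D ∧ ((X p.1 - X p.2) + (X p.2 - X p.1)) ∣ D := by
        intro p hp
        obtain ⟨hE1, hE2⟩ := hE p hp
        have hw1 : 1 ≤ w p.1 := hΩ _ (hw _ (hP p (hQ p hp).1).1)
        rcases lt_or_gt_of_ne hfne with hlt | hgt
        · obtain ⟨a1, a2, a3⟩ := CC_num hw1 hE2 hE1 hlt
          have a4 : D = f c.2 - f c.1 := by omega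
          have a5 : (X p.1 - X p.2) + (X p.2 - X p.1) = X p.2 - X p.1 := by omega
          rw [a4, a5]
          exact ⟨a2, a3⟩
        · obtain ⟨a1, a2, a3⟩ := CC_num hw1 hE1 hE2 hgt
          have a4 : D = f c.1 - f c.2 := by omega
          have a5 : (X p.1 - X p.2) + (X p.2 - X p.1) = X p.1 - X p.2 := by omega
          rw [a4, a5]
          exact ⟨a2, a3⟩
      have hcardt : (D.divisors ×ˢ (D.divisors ×ˢ ({2, 3} : Finset ℕ))).card ≤ 2 * τ ^ 2 := by
        rw [Finset.card_product, Finset.card_product]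
        have h23 : ({2, 3} : Finset ℕ).card = 2 := by decide
        rw [h23]
        have := hτ D hD1 hDN
        nlinarith [Nat.mul_le_mul this this]
      refine le_trans ?_ (Nat.mul_le_mul_left F hcardt)
      refine Finset.card_le_mul_card_image_of_maps_to
        (f := fun p : (α × β) × (α × β) =>
          (w p.1, (((X p.1 - X p.2) + (X p.2 - X p.1)), e p.1))) (fun p hp => ?_) _ (fun k _ => ?_)
      · obtain ⟨b1, b2⟩ := hdiv p hp
        refine Finset.mem_product.2 ⟨Nat.mem_divisors.2 ⟨b1, hDne⟩,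
          Finset.mem_product.2 ⟨Nat.mem_divisors.2 ⟨b2, hDne⟩, ?_⟩⟩
        exact he _ (hP p (hQ p hp).1).1
      · -- the fibre
        by_cases hne2 : (Q.filter fun p =>
            (w p.1, (((X p.1 - X p.2) + (X p.2 - X p.1)), e p.1)) = k) = ∅
        · rw [hne2, Finset.card_empty]; exact Nat.zero_le _
        obtain ⟨p1, hp1⟩ := Finset.nonempty_iff_ne_empty.2 hne2
        rw [Finset.mem_filter] at hp1
        obtain ⟨hp1Q, hp1k⟩ := hp1
        refine le_trans ?_ (hg (g p1.1.2))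
        refine Finset.card_le_card_of_injOn (fun p => p.1.2) ?_ ?_
        · intro p hp
          have hp' := Finset.mem_coe.1 hp
          rw [Finset.mem_filter] at hp'
          obtain ⟨hpQ, hpk⟩ := hp'
          refine Finset.mem_coe.2 (Finset.mem_filter.2 ⟨(hTA _ (hP p (hQ p hpQ).1).1).2, ?_⟩)
          have hkk := hpk.trans hp1k.symm
          simp only [Prod.mk.injEq] at hkk
          obtain ⟨k1, k2, k3⟩ := hkk
          obtain ⟨E1, E2⟩ := hE p hpQ
          obtain ⟨E3, E4⟩ := hE p1 hp1Q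
          rw [← k1, ← k3] at E3 E4
          have hw1 : 1 ≤ w p.1 := hΩ _ (hw _ (hP p (hQ p hpQ).1).1)
          have he1 := he' _ (hP p (hQ p hpQ).1).1
          rcases lt_or_gt_of_ne hfne with hlt | hgt
          · obtain ⟨a1, -, -⟩ := CC_num hw1 E2 E1 hlt
            obtain ⟨a2, -, -⟩ := CC_num hw1 E4 E3 hlt
            exact CC_uniq hw1 he1 E2 E1 E4 E3 a1 a2 (by omega)
          · obtain ⟨a1, -, -⟩ := CC_num hw1 E1 E2 hgt
            obtain ⟨a2, -, -⟩ := CC_num hw1 E3 E4 hgt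
            exact CC_uniq hw1 he1 E1 E2 E3 E4 a1 a2 (by omega)
        · intro p hp p' hp' hpp
          have hq := Finset.mem_coe.1 hp
          have hq' := Finset.mem_coe.1 hp'
          rw [Finset.mem_filter] at hq hq'
          obtain ⟨s1, -, s3, s4⟩ := hQ p hq.1
          obtain ⟨s1', -, s3', s4'⟩ := hQ p' hq'.1
          have e1 := (hP p s1).2.2.1
          have e2 := (hP p' s1').2.2.1
          have hpp' : p.1.2 = p'.1.2 := hpp
          refine Prod.ext (Prod.ext (s3.trans s3'.symm) hpp') (Prod.ext (s4.trans s4'.symm) ?_)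
          rw [← e1, ← e2, hpp']
  rw [hsplit]
  calc _ ≤ F * (A.card * B.card) + (F * (2 * τ ^ 2)) * (A.card * A.card) := Nat.add_le_add h0 h2
    _ = F * A.card * (B.card + 2 * A.card * τ ^ 2) := by ring

end Pool.Agent.Helper44.FB
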