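import Mathlib

/-!
Two disjoint sets of many primes.

PROOF. `Chebyshev.pi_ge (n : ℕ) : (n * log 2 - log (n + 1)) / log n ≤ π n` gives `π y ≥ 2 y^(1-η) + 2` for all
large `y`; take `m = π y / 2` and for `L₁`, `L₂` the first `m` and the next `m` primes (any two disjoint subsets
of cardinality `m` of `Nat.primesLE y` or of the filter of `Icc 1 y`; `Finset.exists_subset_card_eq`).
-/

namespace Pool.Agent.Helper44.FB

open Finset

private lemma Cheb_ev {η : ℝ} (hη : 0 < η) :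
    ∃ y0 : ℕ, ∀ y : ℕ, y0 ≤ y → 2 * (y : ℝ) ^ (1 - η) + 2 ≤ (Nat.primeCounting y : ℝ) := by
  set e : ℝ := min η (1 / 2) with he
  have he0 : 0 < e := lt_min hη (by norm_num)
  have he1 : e ≤ η := min_le_left _ _
  have he2 : e ≤ 1 / 2 := min_le_right _ _
  have h1 : ∀ᶠ x : ℝ in Filter.atTop, Real.log x ≤ (1 / 8) * x ^ e := by
    have := (isLittleO_log_rpow_atTop he0).bound (show (0 : ℝ) < 1 / 8 by norm_num)
    filter_upwards [this, Filter.eventually_ge_atTop (1 : ℝ)] with x hx hx1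
    have hl : 0 ≤ Real.log x := Real.log_nonneg hx1
    rwa [Real.norm_of_nonneg hl, Real.norm_of_nonneg (by positivity)] at hx
  have h2 : ∀ᶠ x : ℝ in Filter.atTop, Real.log x ≤ (1 / 16) * x := by
    have := (isLittleO_log_rpow_atTop (show (0 : ℝ) < 1 by norm_num)).bound
      (show (0 : ℝ) < 1 / 16 by norm_num)
    filter_upwards [this, Filter.eventually_ge_atTop (1 : ℝ)] with x hx hx1
    have hl : 0 ≤ Real.log x := Real.log_nonneg hx1
    rw [Real.rpow_one] at hx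
    rwa [Real.norm_of_nonneg hl, Real.norm_of_nonneg (by linarith)] at hx
  have h3 : ∀ᶠ x : ℝ in Filter.atTop, (2 : ℝ) ≤ x ^ (1 - e) := by
    exact (tendsto_rpow_atTop (show (0 : ℝ) < 1 - e by linarith)).eventually_ge_atTop 2
  have h4 : ∀ᶠ x : ℝ in Filter.atTop, Real.log (x + 1) ≤ (1 / 16) * (x + 1) :=
    (Filter.tendsto_atTop_add_const_right _ (1 : ℝ) Filter.tendsto_id).eventually h2
  have hall := ((h1.and h3).and (h4.and (Filter.eventually_ge_atTop (4 : ℝ))))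
  obtain ⟨y0, hy0⟩ := Filter.eventually_atTop.mp (tendsto_natCast_atTop_atTop.eventually hall)
  refine ⟨y0, fun y hy => ?_⟩
  obtain ⟨⟨a1, a3⟩, a4, a5⟩ := hy0 y hy
  have hpi := Chebyshev.pi_ge y
  have hlog : 0 < Real.log (y : ℝ) := Real.log_pos (by linarith)
  have hl2 : (5 / 8 : ℝ) ≤ Real.log 2 := by linarith [Real.log_two_gt_d9]
  have hy1 : (1 : ℝ) ≤ (y : ℝ) := by linarith
  have hy0' : (0 : ℝ) < (y : ℝ) := by linarith
  have hnum : (y : ℝ) / 2 ≤ (y : ℝ) * Real.log 2 - Real.log ((y : ℝ) + 1) := by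
    have : (y : ℝ) * (5 / 8) ≤ (y : ℝ) * Real.log 2 := by gcongr
    linarith
  have hmul : (y : ℝ) ^ (1 - e) * (y : ℝ) ^ e = y := by
    rw [← Real.rpow_add hy0']
    simp
  have hq : 4 * (y : ℝ) ^ (1 - e) ≤ ((y : ℝ) * Real.log 2 - Real.log ((y : ℝ) + 1)) / Real.log y := by
    rw [le_div_iff₀ hlog]
    have hp : 0 ≤ 4 * (y : ℝ) ^ (1 - e) := by positivity
    calc 4 * (y : ℝ) ^ (1 - e) * Real.log y
        ≤ 4 * (y : ℝ) ^ (1 - e) * ((1 / 8) * (y : ℝ) ^ e) := by gcongr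
      _ = (1 / 2) * ((y : ℝ) ^ (1 - e) * (y : ℝ) ^ e) := by ring
      _ = (y : ℝ) / 2 := by rw [hmul]; ring
      _ ≤ _ := hnum
  have hle : (y : ℝ) ^ (1 - η) ≤ (y : ℝ) ^ (1 - e) :=
    Real.rpow_le_rpow_of_exponent_le hy1 (by linarith)
  have := hq.trans hpi
  linarith

theorem two_sets {η : ℝ} (hη : 0 < η) :
    ∃ y0 : ℕ, ∀ y : ℕ, y0 ≤ y → ∃ (L₁ L₂ : Finset ℕ) (m : ℕ),
      (∀ l ∈ L₁, l.Prime ∧ l ≤ y) ∧ (∀ l ∈ L₂, l.Prime ∧ l ≤ y) ∧ Disjoint L₁ L₂ ∧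
      L₁.card = m ∧ L₂.card = m ∧ (y : ℝ) ^ (1 - η) ≤ m := by
  obtain ⟨y0, h⟩ := Cheb_ev hη
  refine ⟨y0, fun y hy => ?_⟩
  have hc := h y hy
  set P : Finset ℕ := (Finset.range (y + 1)).filter Nat.Prime with hP
  have hcard : P.card = Nat.primeCounting y := by
    rw [hP, Nat.primeCounting, Nat.primeCounting', Nat.count_eq_card_filter_range]
  set m : ℕ := P.card / 2 with hm
  obtain ⟨L₁, hL₁, hc1⟩ := Finset.exists_subset_card_eq (s := P) (n := m) (by omega)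
  have h2 : m ≤ (P \ L₁).card := by
    rw [Finset.card_sdiff_of_subset hL₁, hc1]
    omega
  obtain ⟨L₂, hL₂, hc2⟩ := Finset.exists_subset_card_eq (s := P \ L₁) (n := m) h2
  have hmem : ∀ l ∈ P, l.Prime ∧ l ≤ y := by
    intro l hl
    rw [hP, Finset.mem_filter, Finset.mem_range] at hl
    exact ⟨hl.2, by omega⟩
  refine ⟨L₁, L₂, m, fun l hl => hmem l (hL₁ hl),
    fun l hl => hmem l (Finset.sdiff_subset (hL₂ hl)), ?_, hc1, hc2, ?_⟩
  · rw [Finset.disjoint_left]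
    intro l h1 h2
    exact (Finset.mem_sdiff.mp (hL₂ h2)).2 h1
  · have h3 : P.card ≤ 2 * m + 1 := by omega
    have h4 : (P.card : ℝ) ≤ 2 * (m : ℝ) + 1 := by exact_mod_cast h3
    rw [hcard] at h4
    linarith

end Pool.Agent.Helper44.FB
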