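import Pool.Agent.Helper44.FB.Defs

/-!
Fibres of the product map on tuples of primes.

PROOF. Induction on `n`. `n = 0`: one tuple. Step: the tuples `Fin.cons l a` with product `t`: `l` is a prime
divisor of `t` and `pr a = t / l`; if the set is nonempty then `t` is a product of `n + 1` primes, so it has
at most `n + 1` prime divisors (`t.primeFactors` is contained in the image of any tuple with product `t`);
so the count is at most `(n + 1) * n!`.
(Alternatively: `a'` has the same product as `a` iff `List.ofFn a'` is a permutation of `List.ofFn a`, by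
uniqueness of `Nat.primeFactorsList`.)
-/

namespace Pool.Agent.Helper44.FB

open Finset

lemma Fib_perm {n : ℕ} {a b : Fin n → ℕ} (ha : ∀ i, (a i).Prime) (hb : ∀ i, (b i).Prime)
    (h : pr a = pr b) : ∃ σ : Equiv.Perm (Fin n), a = b ∘ σ := by
  have h1 : (List.ofFn a).Perm (List.ofFn b) := by
    have e1 := Nat.primeFactorsList_unique (n := pr b) (l := List.ofFn a)
      (by rw [List.prod_ofFn]; exact h) (by
        intro p hp; obtain ⟨i, rfl⟩ := List.mem_ofFn.1 hp; exact ha i)
    have e2 := Nat.primeFactorsList_unique (n := pr b) (l := List.ofFn b)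
      (by rw [List.prod_ofFn]) (by
        intro p hp; obtain ⟨i, rfl⟩ := List.mem_ofFn.1 hp; exact hb i)
    exact e1.trans e2.symm
  have h2 : List.ofFn (a ∘ Tuple.sort a) = List.ofFn (b ∘ Tuple.sort b) := by
    refine List.Perm.eq_of_sortedLE ?_ ?_ ?_
    · exact (Tuple.monotone_sort a).sortedLE_ofFn
    · exact (Tuple.monotone_sort b).sortedLE_ofFn
    · exact ((Equiv.Perm.ofFn_comp_perm (Tuple.sort a) a).trans h1).trans
        (Equiv.Perm.ofFn_comp_perm (Tuple.sort b) b).symm
  have h3 := List.ofFn_injective h2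
  refine ⟨Tuple.sort b * (Tuple.sort a)⁻¹, ?_⟩
  funext i
  have h4 := congrFun h3 ((Tuple.sort a)⁻¹ i)
  simpa using h4

theorem fibre {L : Finset ℕ} (hL : ∀ l ∈ L, l.Prime) (n t : ℕ) :
    ((tup L n).filter (fun a => pr a = t)).card ≤ n.factorial := by
  classical
  rcases ((tup L n).filter (fun a => pr a = t)).eq_empty_or_nonempty with h | ⟨b, hb⟩
  · rw [h]; simp
  · rw [Finset.mem_filter, Fintype.mem_piFinset] at hb
    have h1 : ((tup L n).filter (fun a => pr a = t)) ⊆
        (Finset.univ : Finset (Equiv.Perm (Fin n))).image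
          (fun σ : Equiv.Perm (Fin n) => b ∘ (σ : Fin n → Fin n)) := by
      intro a ha
      rw [Finset.mem_filter, Fintype.mem_piFinset] at ha
      obtain ⟨σ, hσ⟩ := Fib_perm (fun i => hL _ (ha.1 i)) (fun i => hL _ (hb.1 i))
        (ha.2.trans hb.2.symm)
      exact Finset.mem_image.2 ⟨σ, Finset.mem_univ _, hσ.symm⟩
    refine (Finset.card_le_card h1).trans (Finset.card_image_le.trans ?_)
    rw [Finset.card_univ, Fintype.card_perm, Fintype.card_fin]

/-- Pairs of tuples with equal products. -/
theorem equal_pairs {L : Finset ℕ} (hL : ∀ l ∈ L, l.Prime) (n : ℕ) :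
    (((tup L n) ×ˢ (tup L n)).filter (fun c => pr c.1 = pr c.2)).card
      ≤ L.card ^ n * n.factorial := by
  classical
  have h1 : ((tup L n) ×ˢ (tup L n)).filter (fun c => pr c.1 = pr c.2) ⊆
      (tup L n).biUnion (fun b => ((tup L n).filter (fun a => pr a = pr b)).image
        (fun a => (a, b))) := by
    intro c hc
    rw [Finset.mem_filter, Finset.mem_product] at hc
    rw [Finset.mem_biUnion]
    exact ⟨c.2, hc.1.2, Finset.mem_image.2 ⟨c.1, Finset.mem_filter.2 ⟨hc.1.1, hc.2⟩, rfl⟩⟩
  refine (Finset.card_le_card h1).trans (Finset.card_biUnion_le.trans ?_)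
  refine (Finset.sum_le_sum (g := fun _ => n.factorial) fun b _ =>
    Finset.card_image_le.trans (fibre hL n (pr b))).trans ?_
  rw [Finset.sum_const, smul_eq_mul, Fintype.card_piFinset]
  simp

end Pool.Agent.Helper44.FB
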