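import Pool.Agent.Helper44.FB.Mono
import Pool.Agent.Helper44.FB.Fib

/-!
Collisions modulo prime powers for two disjoint sets of primes.

PROOF of `cross_prime`. If `pr a ≡ pr b mod p^k`, `k ≥ 1`, `p` prime, then `p` divides neither product: if
`p ∣ pr a` then `p` is an entry of `a` (the entries are primes), `p ∈ L₁`, and `p ∣ pr b` gives `p ∈ L₂`
(if `n = 0` both products are `1`). So both tuples have entries in `Lᵢ.erase p`, elements coprime to `p^k`,
and `cross L₁ L₂ n (p^k) ≤ cross (L₁.erase p) (L₂.erase p) n (p^k)`; use `cross_le`, `coll_mono`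
(card of erase at most `m`) and `coll (L.erase p) ≤ coll L`.
PROOF of `coll_large`. Both products are at most `y^nz ≤ z < p`, so congruent products are equal;
`equal_pairs`.
-/

namespace Pool.Agent.Helper44.FB

open Finset

private theorem Coll_coll_sub {L L' : Finset ℕ} (h : L' ⊆ L) (n q : ℕ) : coll L' n q ≤ coll L n q := by
  unfold coll
  refine Finset.card_le_card (Finset.filter_subset_filter _ ?_)
  have h1 : tup L' n ⊆ tup L n := Fintype.piFinset_subset _ _ (fun _ => h)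
  exact Finset.product_subset_product h1 h1

private theorem Coll_not_mem {L₁ L₂ : Finset ℕ} (h2 : ∀ l ∈ L₂, l.Prime)
    (hd : Disjoint L₁ L₂) {p k : ℕ} (hp : p.Prime) (hk : 0 < k) {n : ℕ} {a b : Fin n → ℕ}
    (ha : ∀ i, a i ∈ L₁) (hb : ∀ i, b i ∈ L₂) (hab : pr a ≡ pr b [MOD p ^ k]) (i : Fin n) :
    a i ≠ p := by
  intro hi
  have hmod : pr a ≡ pr b [MOD p] := hab.of_dvd (dvd_pow_self p hk.ne')
  have hpa : p ∣ pr a := by
    have : a i ∣ pr a := Finset.dvd_prod_of_mem a (Finset.mem_univ i)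
    rwa [hi] at this
  have hpb : p ∣ pr b := (hmod.dvd_iff dvd_rfl).mp hpa
  obtain ⟨j, -, hj⟩ := (hp.prime.dvd_finsetProd_iff b).mp hpb
  have hbj : p = b j := (Nat.prime_dvd_prime_iff_eq hp (h2 _ (hb j))).mp hj
  exact Finset.disjoint_left.mp hd (hi ▸ ha i) (hbj ▸ hb j)

theorem cross_prime {L₁ L₂ : Finset ℕ} (h1 : ∀ l ∈ L₁, l.Prime) (h2 : ∀ l ∈ L₂, l.Prime)
    (hd : Disjoint L₁ L₂) {m : ℕ} (hc1 : L₁.card = m) (hc2 : L₂.card = m) {p k : ℕ} (hp : p.Prime)
    (hk : 0 < k) {n1 n : ℕ} (h : n1 ≤ n) :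
    2 * cross L₁ L₂ n (p ^ k) ≤
      m ^ (2 * (n - n1)) * (coll L₁ n1 (p ^ k) + coll L₂ n1 (p ^ k)) := by
  have hq : 0 < p ^ k := pow_pos hp.pos k
  have step1 : cross L₁ L₂ n (p ^ k) ≤ cross (L₁.erase p) (L₂.erase p) n (p ^ k) := by
    unfold cross
    refine Finset.card_le_card ?_
    intro c hc
    rw [Finset.mem_filter, Finset.mem_product, Fintype.mem_piFinset, Fintype.mem_piFinset] at hc
    rw [Finset.mem_filter, Finset.mem_product, Fintype.mem_piFinset, Fintype.mem_piFinset]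
    obtain ⟨⟨ha, hb⟩, hm⟩ := hc
    refine ⟨⟨fun i => Finset.mem_erase.mpr ⟨?_, ha i⟩, fun i => Finset.mem_erase.mpr ⟨?_, hb i⟩⟩, hm⟩
    · exact Coll_not_mem h2 hd hp hk ha hb hm i
    · exact Coll_not_mem h1 hd.symm hp hk hb ha hm.symm i
  have key : ∀ L : Finset ℕ, (∀ l ∈ L, l.Prime) → L.card = m →
      coll (L.erase p) n (p ^ k) ≤ m ^ (2 * (n - n1)) * coll L n1 (p ^ k) := by
    intro L hL hc
    have hcop : ∀ l ∈ L.erase p, Nat.Coprime l (p ^ k) := by
      intro l hl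
      rw [Finset.mem_erase] at hl
      exact Nat.Coprime.pow_right k ((Nat.coprime_primes (hL l hl.2) hp).mpr hl.1)
    refine (coll_mono hq hcop h).trans ?_
    refine Nat.mul_le_mul (Nat.pow_le_pow_left ?_ _) (Coll_coll_sub (Finset.erase_subset _ _) _ _)
    rw [← hc]
    exact Finset.card_le_card (Finset.erase_subset _ _)
  have e1 := key L₁ h1 hc1
  have e2 := key L₂ h2 hc2
  have e3 := cross_le (L₁.erase p) (L₂.erase p) n hq
  calc 2 * cross L₁ L₂ n (p ^ k) ≤ 2 * cross (L₁.erase p) (L₂.erase p) n (p ^ k) :=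
        Nat.mul_le_mul_left 2 step1
    _ ≤ coll (L₁.erase p) n (p ^ k) + coll (L₂.erase p) n (p ^ k) := e3
    _ ≤ m ^ (2 * (n - n1)) * coll L₁ n1 (p ^ k) + m ^ (2 * (n - n1)) * coll L₂ n1 (p ^ k) :=
        Nat.add_le_add e1 e2
    _ = m ^ (2 * (n - n1)) * (coll L₁ n1 (p ^ k) + coll L₂ n1 (p ^ k)) := (Nat.mul_add _ _ _).symm

theorem coll_large {L : Finset ℕ} (hL : ∀ l ∈ L, l.Prime) {y nz z p : ℕ} (hy : ∀ l ∈ L, l ≤ y)
    (hz : y ^ nz ≤ z) (hp : z < p) : coll L nz p ≤ L.card ^ nz * nz.factorial := by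
  have hpr : ∀ a ∈ tup L nz, pr a < p := by
    intro a ha
    rw [Fintype.mem_piFinset] at ha
    have : pr a ≤ y ^ nz := by
      have h1 := Finset.prod_le_pow_card (Finset.univ : Finset (Fin nz)) a y (fun i _ => hy _ (ha i))
      simpa using h1
    exact lt_of_le_of_lt (this.trans hz) hp
  refine le_trans ?_ (equal_pairs hL nz)
  unfold coll
  refine Finset.card_le_card ?_
  intro c hc
  rw [Finset.mem_filter, Finset.mem_product] at hc
  rw [Finset.mem_filter, Finset.mem_product]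
  exact ⟨hc.1, Nat.ModEq.eq_of_lt_of_lt hc.2 (hpr _ hc.1.1) (hpr _ hc.1.2)⟩

end Pool.Agent.Helper44.FB
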