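import Pool.Agent.Helper44.FB.Fib

/-!
The collision counts at level `n1`, summed over the prime powers.

PROOF. Exchange the sums: for a pair `(a, a')` of tuples the inner sum is
`sum over primes p ≤ z, 1 ≤ k ≤ K, pr a ≡ pr a' mod p^k, of log p`. If `pr a ≠ pr a'`, `D = |pr a - pr a'| ≥ 1`,
this is at most `sum_p v_p(D) log p ≤ log D ≤ log (y^n1)` (products are between `1` and `y^n1`). If they are
equal (at most `|L|^n1 * n1!` pairs by `equal_pairs`) it is at most
`sum_(p ≤ z) K log p ≤ z * K * log z`.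
-/

namespace Pool.Agent.Helper44.FB

open Finset

/-- the sum of `v_p(D) log p` over a set of primes is at most `log D` -/
private theorem CollSum_log (P : Finset ℕ) {D : ℕ} (hD : D ≠ 0) :
    ∑ p ∈ P, (D.factorization p : ℝ) * Real.log p ≤ Real.log D := by
  classical
  have h0 : ∀ p : ℕ, 0 ≤ (D.factorization p : ℝ) * Real.log p := fun p =>
    mul_nonneg (Nat.cast_nonneg _) (Real.log_natCast_nonneg p)
  have h1 : ∑ p ∈ P, (D.factorization p : ℝ) * Real.log p =
      ∑ p ∈ P.filter (fun p => p ∈ D.factorization.support), (D.factorization p : ℝ) * Real.log p := by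
    rw [Finset.sum_filter_of_ne]
    intro p _ hne
    rw [Finsupp.mem_support_iff]
    intro h
    apply hne
    rw [h]
    simp
  rw [h1, Real.log_nat_eq_sum_factorization, Finsupp.sum]
  refine Finset.sum_le_sum_of_subset_of_nonneg (fun p hp => (Finset.mem_filter.1 hp).2) fun p _ _ => h0 p

/-- the inner sum for unequal products -/
private theorem CollSum_inner {p : ℕ} (hp : p.Prime) {D : ℕ} (hD : D ≠ 0) (K : ℕ) :
    ∑ k ∈ Icc 1 K, (if p ^ k ∣ D then Real.log p else 0) ≤ (D.factorization p : ℝ) * Real.log p := by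
  classical
  rw [← Finset.sum_filter, Finset.sum_const, nsmul_eq_mul]
  refine mul_le_mul_of_nonneg_right ?_ (Real.log_natCast_nonneg p)
  have h1 : (Icc 1 K).filter (fun k => p ^ k ∣ D) ⊆ Icc 1 (D.factorization p) := by
    intro k hk
    rw [Finset.mem_filter, Finset.mem_Icc] at hk
    rw [Finset.mem_Icc]
    exact ⟨hk.1.1, (hp.pow_dvd_iff_le_factorization hD).1 hk.2⟩
  have h2 := Finset.card_le_card h1
  rw [Nat.card_Icc, Nat.add_sub_cancel] at h2
  exact_mod_cast h2

private theorem CollSum_pr {L : Finset ℕ} {y : ℕ} (hy : ∀ l ∈ L, l ≤ y) {n : ℕ} {a : Fin n → ℕ}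
    (ha : a ∈ tup L n) : pr a ≤ y ^ n := by
  rw [Fintype.mem_piFinset] at ha
  calc pr a ≤ ∏ _i : Fin n, y := Finset.prod_le_prod' fun i _ => hy _ (ha i)
    _ = y ^ n := by simp

theorem coll_sum {L : Finset ℕ} (hL : ∀ l ∈ L, l.Prime) {y : ℕ} (hy1 : 1 ≤ y)
    (hy : ∀ l ∈ L, l ≤ y) (n1 z K : ℕ) :
    ∑ p ∈ (Icc 1 z).filter Nat.Prime, ∑ k ∈ Icc 1 K, Real.log p * (coll L n1 (p ^ k) : ℝ) ≤
      (L.card : ℝ) ^ (2 * n1) * Real.log ((y : ℝ) ^ n1)
        + (L.card : ℝ) ^ n1 * n1.factorial * (K * z * Real.log z) := by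
  classical
  set P := (Icc 1 z).filter Nat.Prime with hP
  set T := (tup L n1) ×ˢ (tup L n1) with hT
  have hlogy : 0 ≤ Real.log ((y : ℝ) ^ n1) :=
    Real.log_nonneg (one_le_pow₀ (by exact_mod_cast hy1))
  have hE0 : (0 : ℝ) ≤ K * z * Real.log z := by
    have := Real.log_natCast_nonneg z
    positivity
  have h1 : ∑ p ∈ P, ∑ k ∈ Icc 1 K, Real.log p * (coll L n1 (p ^ k) : ℝ) =
      ∑ c ∈ T, ∑ p ∈ P, ∑ k ∈ Icc 1 K, (if pr c.1 ≡ pr c.2 [MOD p ^ k] then Real.log p else 0) := by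
    have h0 : ∀ p k : ℕ, Real.log p * (coll L n1 (p ^ k) : ℝ) =
        ∑ c ∈ T, (if pr c.1 ≡ pr c.2 [MOD p ^ k] then Real.log p else 0) := by
      intro p k
      rw [← Finset.sum_filter, Finset.sum_const, nsmul_eq_mul, mul_comm]
      rfl
    calc ∑ p ∈ P, ∑ k ∈ Icc 1 K, Real.log p * (coll L n1 (p ^ k) : ℝ)
        = ∑ p ∈ P, ∑ k ∈ Icc 1 K, ∑ c ∈ T,
            (if pr c.1 ≡ pr c.2 [MOD p ^ k] then Real.log p else 0) :=
          Finset.sum_congr rfl fun p _ => Finset.sum_congr rfl fun k _ => h0 p k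
      _ = ∑ p ∈ P, ∑ c ∈ T, ∑ k ∈ Icc 1 K,
            (if pr c.1 ≡ pr c.2 [MOD p ^ k] then Real.log p else 0) :=
          Finset.sum_congr rfl fun p _ => Finset.sum_comm
      _ = _ := Finset.sum_comm
  rw [h1]
  have hne : ∀ c ∈ T, pr c.1 ≠ pr c.2 →
      ∑ p ∈ P, ∑ k ∈ Icc 1 K, (if pr c.1 ≡ pr c.2 [MOD p ^ k] then Real.log p else 0) ≤
        Real.log ((y : ℝ) ^ n1) := by
    intro c hc hcne
    rw [hT, Finset.mem_product] at hc
    set D := ((pr c.2 : ℤ) - (pr c.1 : ℤ)).natAbs with hD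
    have hD0 : D ≠ 0 := by
      rw [hD, Int.natAbs_ne_zero]
      intro h
      apply hcne
      have : (pr c.2 : ℤ) = (pr c.1 : ℤ) := sub_eq_zero.1 h
      exact_mod_cast this.symm
    have hmod : ∀ q : ℕ, pr c.1 ≡ pr c.2 [MOD q] ↔ q ∣ D := by
      intro q
      rw [Nat.modEq_iff_dvd, Int.natCast_dvd]
    have h2 : ∑ p ∈ P, ∑ k ∈ Icc 1 K, (if pr c.1 ≡ pr c.2 [MOD p ^ k] then Real.log p else 0) ≤
        ∑ p ∈ P, (D.factorization p : ℝ) * Real.log p := by
      refine Finset.sum_le_sum fun p hp => ?_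
      have hpp : p.Prime := (Finset.mem_filter.1 hp).2
      refine le_trans (le_of_eq ?_) (CollSum_inner hpp hD0 K)
      refine Finset.sum_congr rfl fun k _ => ?_
      by_cases h : p ^ k ∣ D
      · rw [if_pos h, if_pos ((hmod _).2 h)]
      · rw [if_neg h, if_neg (fun h' => h ((hmod _).1 h'))]
    refine h2.trans ((CollSum_log P hD0).trans ?_)
    refine Real.log_le_log (by exact_mod_cast Nat.pos_of_ne_zero hD0) ?_
    have h3 := CollSum_pr hy hc.1
    have h4 := CollSum_pr hy hc.2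
    have h5 : D ≤ y ^ n1 := by omega
    exact_mod_cast h5
  have heq : ∀ c ∈ T,
      ∑ p ∈ P, ∑ k ∈ Icc 1 K, (if pr c.1 ≡ pr c.2 [MOD p ^ k] then Real.log p else 0) ≤
        K * z * Real.log z := by
    intro c _
    have h2 : ∑ p ∈ P, ∑ k ∈ Icc 1 K, (if pr c.1 ≡ pr c.2 [MOD p ^ k] then Real.log p else 0) ≤
        ∑ p ∈ P, (K : ℝ) * Real.log z := by
      refine Finset.sum_le_sum fun p hp => ?_
      rw [hP, Finset.mem_filter, Finset.mem_Icc] at hp
      have hlp : Real.log p ≤ Real.log z :=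
        Real.log_le_log (by exact_mod_cast hp.2.pos) (by exact_mod_cast hp.1.2)
      calc ∑ k ∈ Icc 1 K, (if pr c.1 ≡ pr c.2 [MOD p ^ k] then Real.log p else 0)
          ≤ ∑ _k ∈ Icc 1 K, Real.log z := by
            refine Finset.sum_le_sum fun k _ => ?_
            split_ifs
            · exact hlp
            · exact Real.log_natCast_nonneg z
        _ = K * Real.log z := by simp
    refine h2.trans ?_
    rw [Finset.sum_const, nsmul_eq_mul]
    have h3 : P.card ≤ z := by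
      calc P.card ≤ (Icc 1 z).card := Finset.card_filter_le _ _
        _ = z := by simp
    have h4 : (P.card : ℝ) ≤ z := by exact_mod_cast h3
    have h5 : 0 ≤ (K : ℝ) * Real.log z := mul_nonneg (Nat.cast_nonneg _) (Real.log_natCast_nonneg z)
    calc (P.card : ℝ) * (K * Real.log z) ≤ z * (K * Real.log z) := mul_le_mul_of_nonneg_right h4 h5
      _ = K * z * Real.log z := by ring
  have hsplit : ∀ c ∈ T,
      ∑ p ∈ P, ∑ k ∈ Icc 1 K, (if pr c.1 ≡ pr c.2 [MOD p ^ k] then Real.log p else 0) ≤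
        Real.log ((y : ℝ) ^ n1) + (if pr c.1 = pr c.2 then K * z * Real.log z else 0) := by
    intro c hc
    by_cases h : pr c.1 = pr c.2
    · rw [if_pos h]
      linarith [heq c hc]
    · rw [if_neg h, add_zero]
      exact hne c hc h
  refine (Finset.sum_le_sum hsplit).trans ?_
  rw [Finset.sum_add_distrib, Finset.sum_const, nsmul_eq_mul, ← Finset.sum_filter, Finset.sum_const,
    nsmul_eq_mul]
  have hcard : (T.card : ℝ) = (L.card : ℝ) ^ (2 * n1) := by
    rw [hT, Finset.card_product, Fintype.card_piFinset_const, two_mul, pow_add]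
    push_cast
    ring
  rw [hcard]
  have h6 : ((T.filter (fun c => pr c.1 = pr c.2)).card : ℝ) ≤ (L.card : ℝ) ^ n1 * n1.factorial := by
    exact_mod_cast equal_pairs hL n1
  have h7 := mul_le_mul_of_nonneg_right h6 hE0
  linarith

end Pool.Agent.Helper44.FB
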