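import Mathlib

/-!
Project FB (MP_5524a6_nt, small bases with nonvanishing Fermat quotient), definitions.
-/

namespace Pool.Agent.Helper44.FB

open Finset

/-- `n`-tuples with entries in `L`. -/
abbrev tup (L : Finset ℕ) (n : ℕ) : Finset (Fin n → ℕ) := Fintype.piFinset (fun _ => L)

/-- The product of a tuple. -/
abbrev pr {n : ℕ} (a : Fin n → ℕ) : ℕ := ∏ i, a i

/-- Number of pairs of tuples with entries in `L` whose products agree modulo `q`. -/
def coll (L : Finset ℕ) (n q : ℕ) : ℕ :=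
  (((tup L n) ×ˢ (tup L n)).filter (fun c => pr c.1 ≡ pr c.2 [MOD q])).card

/-- Number of pairs in `L₁^n × L₂^n` whose products agree modulo `q`. -/
def cross (L₁ L₂ : Finset ℕ) (n q : ℕ) : ℕ :=
  (((tup L₁ n) ×ˢ (tup L₂ n)).filter (fun c => pr c.1 ≡ pr c.2 [MOD q])).card

/-- The distance of the two products. -/
def dd {n : ℕ} (c : (Fin n → ℕ) × (Fin n → ℕ)) : ℕ := (pr c.1 - pr c.2) + (pr c.2 - pr c.1)

/-- The `z`-smooth part. -/
def sm (z D : ℕ) : ℕ := ∏ p ∈ (Finset.Icc 1 z).filter Nat.Prime, p ^ (D.factorization p)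

/-- The integers `s * X ^ j` with `1 ≤ s ≤ E`, `1 ≤ X ≤ H`, `j = 2, 3`. -/
def Om (E H : ℕ) : Finset ℕ :=
  ((Finset.Icc 1 E) ×ˢ (Finset.Icc 1 H)).image (fun c => c.1 * c.2 ^ 2) ∪
    ((Finset.Icc 1 E) ×ˢ (Finset.Icc 1 H)).image (fun c => c.1 * c.2 ^ 3)

end Pool.Agent.Helper44.FB
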