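import Pool.Agent.Helper44.FB.Defs

/-!
Powerful numbers.

PROOF of `bad_sq`. `u = pr a`, `v = pr b`: `u^p ≡ u`, `v^p ≡ v mod p^2` (multiplicativity over the entries,
`p^2 ∣ a^p - a` with `a^p ≥ a`), and `p ∣ u - v` gives `u^p ≡ v^p mod p^2`
(`dvd_sub_pow_of_dvd_sub` in `ℤ`, or `Int.ModEq`).
PROOF of `decomp`. `D = sm z D * m'` where all primes dividing `m'` are `> z` and `m'` is powerful
(every prime divides it with exponent `≥ 2`, as `v_p(D) = v_p(m')` for `p > z`), so `m' = A^2 B^3`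
(strong induction on `m'`: take out `p^k = (p^i)^2 (p^j)^3`, `j = k mod 2`). `A^2 B^3 ≤ D ≤ N < (H+1)^5`, so
`B ≤ H` (then `w = s B^3`, `e = 2`, `X = A`) or `A ≤ H` (then `w = s A^2`, `e = 3`, `X = B`), `s = sm z D ≤ E`.
-/

namespace Pool.Agent.Helper44.FB

open Finset

private theorem Pow_base {p a : ℕ} (hp : p.Prime) (h : p ^ 2 ∣ a ^ p - a) :
    a ^ p ≡ a [MOD p ^ 2] := by
  have h1 : a ≤ a ^ p := Nat.le_self_pow hp.ne_zero a
  exact ((Nat.modEq_iff_dvd' h1).2 h).symm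

private theorem Pow_pr {p y : ℕ} (hp : p.Prime) (hbad : ∀ a, 1 ≤ a → a ≤ y → p ^ 2 ∣ a ^ p - a)
    {n : ℕ} {a : Fin n → ℕ} (ha : ∀ i, 1 ≤ a i ∧ a i ≤ y) : (pr a) ^ p ≡ pr a [MOD p ^ 2] := by
  unfold pr
  rw [← Finset.prod_pow]
  exact Nat.ModEq.prod fun i _ => Pow_base hp (hbad (a i) (ha i).1 (ha i).2)

theorem bad_sq {p y : ℕ} (hp : p.Prime) (hbad : ∀ a, 1 ≤ a → a ≤ y → p ^ 2 ∣ a ^ p - a) {n : ℕ}
    {a b : Fin n → ℕ} (ha : ∀ i, 1 ≤ a i ∧ a i ≤ y) (hb : ∀ i, 1 ≤ b i ∧ b i ≤ y)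
    (h : pr a ≡ pr b [MOD p]) : pr a ≡ pr b [MOD p ^ 2] := by
  have h1 := Pow_pr hp hbad ha
  have h2 := Pow_pr hp hbad hb
  refine (h1.symm.trans ?_).trans h2
  rw [Nat.modEq_iff_dvd] at h ⊢
  have h3 := dvd_sub_pow_of_dvd_sub h 1
  rw [pow_one] at h3
  rw [Nat.cast_pow, Nat.cast_pow, Nat.cast_pow]
  exact h3

private theorem Pow_split (v : ℕ) (hv : 2 ≤ v) :
    v = 2 * ((v - 3 * (v % 2)) / 2) + 3 * (v % 2) := by
  omega

theorem decomp {D z E H N : ℕ} (hD : 1 ≤ D) (hDN : D ≤ N) (hH : N < (H + 1) ^ 5)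
    (hs : sm z D ≤ E) (hb : ∀ p, p.Prime → z < p → p ∣ D → p ^ 2 ∣ D) :
    ∃ w ∈ Om E H, ∃ e ∈ ({2, 3} : Finset ℕ), ∃ X : ℕ, 1 ≤ X ∧ D = w * X ^ e := by
  classical
  have hD0 : D ≠ 0 := by omega
  obtain ⟨S, hS⟩ : ∃ S, S = sm z D := ⟨_, rfl⟩
  obtain ⟨L, hL⟩ : ∃ L : Finset ℕ, L = D.primeFactors.filter (fun p => ¬ p ≤ z) := ⟨_, rfl⟩
  obtain ⟨A, hA⟩ : ∃ A : ℕ, A = ∏ p ∈ L, p ^ ((D.factorization p - 3 * (D.factorization p % 2)) / 2) :=
    ⟨_, rfl⟩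
  obtain ⟨B, hB⟩ : ∃ B : ℕ, B = ∏ p ∈ L, p ^ (D.factorization p % 2) := ⟨_, rfl⟩
  have hLp : ∀ p ∈ L, p.Prime := fun p hp => by
    rw [hL, Finset.mem_filter] at hp
    exact Nat.prime_of_mem_primeFactors hp.1
  have hA1 : 1 ≤ A := by
    rw [hA]
    exact Finset.prod_pos fun p hp => Nat.pow_pos (hLp p hp).pos
  have hB1 : 1 ≤ B := by
    rw [hB]
    exact Finset.prod_pos fun p hp => Nat.pow_pos (hLp p hp).pos
  have hS1 : 1 ≤ S := by
    rw [hS]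
    unfold sm
    refine Finset.prod_pos fun p hp => Nat.pow_pos ?_
    rw [Finset.mem_filter] at hp
    exact hp.2.pos
  have hbig : ∏ p ∈ L, p ^ (D.factorization p) = A ^ 2 * B ^ 3 := by
    rw [hA, hB, ← Finset.prod_pow, ← Finset.prod_pow, ← Finset.prod_mul_distrib]
    refine Finset.prod_congr rfl fun p hp => ?_
    have hpp := hLp p hp
    rw [hL, Finset.mem_filter, Nat.mem_primeFactors] at hp
    have h2 : 2 ≤ D.factorization p :=
      (hpp.pow_dvd_iff_le_factorization hD0).1 (hb p hpp (by omega) hp.1.2.1)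
    rw [← pow_mul, ← pow_mul, ← pow_add]
    congr 1
    have h3 := Pow_split _ h2
    omega
  have hsmall : ∏ p ∈ D.primeFactors.filter (fun p => p ≤ z), p ^ (D.factorization p) = S := by
    rw [hS]
    unfold sm
    refine Finset.prod_subset ?_ ?_
    · intro p hp
      rw [Finset.mem_filter, Nat.mem_primeFactors] at hp
      rw [Finset.mem_filter, Finset.mem_Icc]
      exact ⟨⟨hp.1.1.pos, hp.2⟩, hp.1.1⟩
    · intro p hp hnp
      rw [Finset.mem_filter, Finset.mem_Icc] at hp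
      rw [Finset.mem_filter, Nat.mem_primeFactors] at hnp
      have h1 : ¬ p ∣ D := fun h => hnp ⟨⟨hp.2, h, hD0⟩, hp.1.2⟩
      rw [Nat.factorization_eq_zero_of_not_dvd h1, pow_zero]
  have hDeq : D = S * (A ^ 2 * B ^ 3) := by
    have h1 : ∏ p ∈ D.primeFactors, p ^ (D.factorization p) = D :=
      Nat.prod_factorization_pow_eq_self hD0
    rw [← hsmall, ← hbig, hL, Finset.prod_filter_mul_prod_filter_not, h1]
  have hle : A ^ 2 * B ^ 3 ≤ D := by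
    calc A ^ 2 * B ^ 3 ≤ S * (A ^ 2 * B ^ 3) := Nat.le_mul_of_pos_left _ hS1
      _ = D := hDeq.symm
  have hcase : B ≤ H ∨ A ≤ H := by
    by_contra hcon
    rw [not_or] at hcon
    push Not at hcon
    have h1 : (H + 1) ^ 5 ≤ A ^ 2 * B ^ 3 := by
      calc (H + 1) ^ 5 = (H + 1) ^ 2 * (H + 1) ^ 3 := by ring
        _ ≤ A ^ 2 * B ^ 3 :=
          Nat.mul_le_mul (Nat.pow_le_pow_left hcon.2 2) (Nat.pow_le_pow_left hcon.1 3)
    omega
  rw [← hS] at hs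
  rcases hcase with hc | hc
  · refine ⟨S * B ^ 3, ?_, 2, by simp, A, hA1, by rw [hDeq]; ring⟩
    unfold Om
    refine Finset.mem_union_right _ (Finset.mem_image.2 ⟨(S, B), ?_, rfl⟩)
    rw [Finset.mem_product, Finset.mem_Icc, Finset.mem_Icc]
    exact ⟨⟨hS1, hs⟩, hB1, hc⟩
  · refine ⟨S * A ^ 2, ?_, 3, by simp, B, hB1, by rw [hDeq]; ring⟩
    unfold Om
    refine Finset.mem_union_left _ (Finset.mem_image.2 ⟨(S, A), ?_, rfl⟩)
    rw [Finset.mem_product, Finset.mem_Icc, Finset.mem_Icc]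
    exact ⟨⟨hS1, hs⟩, hA1, hc⟩

theorem Om_card (E H : ℕ) : (Om E H).card ≤ 2 * (E * H) := by
  unfold Om
  refine (Finset.card_union_le _ _).trans ?_
  have h1 : (Finset.Icc 1 E ×ˢ Finset.Icc 1 H).card = E * H := by
    rw [Finset.card_product, Nat.card_Icc, Nat.card_Icc, Nat.add_sub_cancel, Nat.add_sub_cancel]
  have h2 := Finset.card_image_le (s := Finset.Icc 1 E ×ˢ Finset.Icc 1 H)
    (f := fun c : ℕ × ℕ => c.1 * c.2 ^ 2)
  have h3 := Finset.card_image_le (s := Finset.Icc 1 E ×ˢ Finset.Icc 1 H)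
    (f := fun c : ℕ × ℕ => c.1 * c.2 ^ 3)
  rw [h1] at h2 h3
  omega

theorem Om_pos {E H : ℕ} : ∀ w ∈ Om E H, 1 ≤ w := by
  intro w hw
  unfold Om at hw
  rw [Finset.mem_union, Finset.mem_image, Finset.mem_image] at hw
  rcases hw with ⟨c, hc, rfl⟩ | ⟨c, hc, rfl⟩
  · rw [Finset.mem_product, Finset.mem_Icc, Finset.mem_Icc] at hc
    exact Nat.mul_pos hc.1.1 (Nat.pow_pos hc.2.1)
  · rw [Finset.mem_product, Finset.mem_Icc, Finset.mem_Icc] at hc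
    exact Nat.mul_pos hc.1.1 (Nat.pow_pos hc.2.1)

end Pool.Agent.Helper44.FB
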