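import Pool.Agent.Helper44.FB.Smooth
import Pool.Agent.Helper44.FB.CC
import Pool.Agent.Helper44.FB.Pow

/-!
The finite theorem.

PROOF. `A = m^n`; all pairs: `A^2 = m^(2 n)`. `X₁` = pairs such that some `p ∈ Gd` divides `dd c`:
`|X₁| ≤ sum_(p ∈ Gd) cross L₁ L₂ n p ≤ |Gd| * m^(2 (n - nz)) * m^nz * nz! ≤ A^2 / 4` (`cross_prime` with `k = 1`,
`coll_large`, `hi`). `X₂` = pairs with `sm z (dd c) > E`: `|X₂| log E ≤ sum log sm ≤ A^2 (log E) / 4`
(`sum_log_sm`, `hii`; all `sm ≥ 1`). The rest `T` has at least `A^2 / 2` elements. For `c ∈ T` the products are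
different (`n ≥ 1`, disjoint sets of primes), `1 ≤ dd c ≤ N`, and every prime `p > z` dividing `dd c` is `≤ N`,
not in `Gd`, so `p^2 ∣ dd c` (`bad_sq`), so `decomp` applies. Split `T` into `pr b < pr a` and `pr a < pr b`; one
part has `≥ A^2 / 4` elements; `cauchy_count` (with the roles of the factors exchanged in the second case;
fibres by `fibre`, `F = n!`, `Ω = Om E H`) gives
`(A^2 / 4)^2 ≤ A * 2 |Om| * n! * A * (A + 2 A τ^2) ≤ 4 A^3 E H n! (1 + 2 τ^2)`.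
-/

namespace Pool.Agent.Helper44.FB

open Finset

private theorem Fin_card_tup (L : Finset ℕ) (n : ℕ) : (tup L n).card = L.card ^ n := by
  simp [tup, Fintype.card_piFinset]

private theorem Fin_mem {L : Finset ℕ} {n : ℕ} {a : Fin n → ℕ} (h : a ∈ tup L n) (i : Fin n) :
    a i ∈ L := Fintype.mem_piFinset.1 h i

private theorem Fin_pr_le {L : Finset ℕ} {y : ℕ} (hL : ∀ l ∈ L, l ≤ y) {n : ℕ} {a : Fin n → ℕ}
    (h : a ∈ tup L n) : pr a ≤ y ^ n := by
  calc pr a ≤ ∏ _i : Fin n, y := Finset.prod_le_prod' fun i _ => hL _ (Fin_mem h i)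
    _ = y ^ n := by simp

private theorem Fin_pr_ne {L₁ L₂ : Finset ℕ} (h1 : ∀ l ∈ L₁, l.Prime) (h2 : ∀ l ∈ L₂, l.Prime)
    (hd : Disjoint L₁ L₂) {n : ℕ} (hn : 1 ≤ n) {a b : Fin n → ℕ} (ha : a ∈ tup L₁ n)
    (hb : b ∈ tup L₂ n) : pr a ≠ pr b := by
  intro e
  have i0 : Fin n := ⟨0, hn⟩
  have hp : (a i0).Prime := h1 _ (Fin_mem ha i0)
  have hdv : a i0 ∣ pr b := by
    rw [← e]
    exact Finset.dvd_prod_of_mem a (Finset.mem_univ i0)
  obtain ⟨j, -, hj⟩ := (Prime.dvd_finsetProd_iff hp.prime b).1 hdv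
  have e2 : a i0 = b j := (Nat.prime_dvd_prime_iff_eq hp (h2 _ (Fin_mem hb j))).1 hj
  have := Fin_mem ha i0
  rw [e2] at this
  exact Finset.disjoint_left.1 hd this (Fin_mem hb j)

private theorem Fin_dvd_dd {n p : ℕ} (c : (Fin n → ℕ) × (Fin n → ℕ)) :
    p ∣ dd c ↔ pr c.1 ≡ pr c.2 [MOD p] := by
  unfold dd
  rcases le_total (pr c.1) (pr c.2) with h | h
  · rw [Nat.sub_eq_zero_of_le h, zero_add]
    exact (Nat.modEq_iff_dvd' h).symm
  · rw [Nat.sub_eq_zero_of_le h, add_zero]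
    exact (Nat.modEq_iff_dvd' h).symm.trans Nat.ModEq.comm

private theorem Fin_sm_pos (z D : ℕ) : 1 ≤ sm z D := by
  have h : 0 < sm z D := by
    unfold sm
    exact Finset.prod_pos fun p hp => pow_pos (Nat.Prime.pos (Finset.mem_filter.1 hp).2) _
  exact h

private theorem Fin_X1 {L₁ L₂ : Finset ℕ} {m y z n nz : ℕ} {Gd : Finset ℕ}
    (h1 : ∀ l ∈ L₁, l.Prime ∧ l ≤ y) (h2 : ∀ l ∈ L₂, l.Prime ∧ l ≤ y) (hd : Disjoint L₁ L₂)
    (hc1 : L₁.card = m) (hc2 : L₂.card = m)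
    (hnz : nz ≤ n) (hz : y ^ nz ≤ z)
    (hGd : ∀ p ∈ Gd, p.Prime ∧ z < p)
    (hi : 4 * Gd.card * nz.factorial ≤ m ^ nz) :
    4 * (((tup L₁ n) ×ˢ (tup L₂ n)).filter (fun c => ∃ p ∈ Gd, p ∣ dd c)).card ≤ m ^ (2 * n) := by
  classical
  set P := (tup L₁ n) ×ˢ (tup L₂ n) with hP
  have hsub : P.filter (fun c => ∃ p ∈ Gd, p ∣ dd c) ⊆
      Gd.biUnion (fun p => P.filter (fun c => p ∣ dd c)) := by
    intro c hc
    obtain ⟨hc1, p, hp, hpd⟩ := Finset.mem_filter.1 hc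
    exact Finset.mem_biUnion.2 ⟨p, hp, Finset.mem_filter.2 ⟨hc1, hpd⟩⟩
  have hone : ∀ p ∈ Gd, (P.filter (fun c => p ∣ dd c)).card ≤
      m ^ (2 * (n - nz)) * (m ^ nz * nz.factorial) := by
    intro p hp
    obtain ⟨hpp, hzp⟩ := hGd p hp
    have e1 : (P.filter (fun c => p ∣ dd c)).card = cross L₁ L₂ n (p ^ 1) := by
      unfold cross
      rw [pow_one]
      congr 1
      refine Finset.filter_congr fun c _ => Fin_dvd_dd c
    have e2 := cross_prime (fun l hl => (h1 l hl).1) (fun l hl => (h2 l hl).1) hd hc1 hc2 hpp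
      one_pos hnz
    have e3 := coll_large (fun l hl => (h1 l hl).1) (fun l hl => (h1 l hl).2) hz hzp
    have e4 := coll_large (fun l hl => (h2 l hl).1) (fun l hl => (h2 l hl).2) hz hzp
    rw [hc1] at e3
    rw [hc2] at e4
    rw [pow_one] at e1 e2
    have e5 : m ^ (2 * (n - nz)) * (coll L₁ nz p + coll L₂ nz p) ≤
        m ^ (2 * (n - nz)) * (2 * (m ^ nz * nz.factorial)) :=
      Nat.mul_le_mul_left _ (by omega)
    have e6 : m ^ (2 * (n - nz)) * (2 * (m ^ nz * nz.factorial)) =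
        2 * (m ^ (2 * (n - nz)) * (m ^ nz * nz.factorial)) := by ring
    rw [e1]
    omega
  have hcard : (P.filter (fun c => ∃ p ∈ Gd, p ∣ dd c)).card ≤
      Gd.card * (m ^ (2 * (n - nz)) * (m ^ nz * nz.factorial)) :=
    (Finset.card_le_card hsub).trans (Finset.card_biUnion_le_card_mul _ _ _ hone)
  calc 4 * (P.filter (fun c => ∃ p ∈ Gd, p ∣ dd c)).card
      ≤ 4 * (Gd.card * (m ^ (2 * (n - nz)) * (m ^ nz * nz.factorial))) :=
        Nat.mul_le_mul_left _ hcard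
    _ = (4 * Gd.card * nz.factorial) * (m ^ (2 * (n - nz)) * m ^ nz) := by ring
    _ ≤ m ^ nz * (m ^ (2 * (n - nz)) * m ^ nz) := Nat.mul_le_mul_right _ hi
    _ = m ^ (nz + (2 * (n - nz) + nz)) := by rw [pow_add, pow_add]
    _ = m ^ (2 * n) := by
        congr 1
        omega

private theorem Fin_X2 {L₁ L₂ : Finset ℕ} {m y z N n n1 K E : ℕ}
    (h1 : ∀ l ∈ L₁, l.Prime ∧ l ≤ y) (h2 : ∀ l ∈ L₂, l.Prime ∧ l ≤ y) (hd : Disjoint L₁ L₂)
    (hc1 : L₁.card = m) (hc2 : L₂.card = m) (hm : 1 ≤ m) (hyn : y ^ n ≤ N)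
    (hn1 : n1 ≤ n) (hK : N < 2 ^ K) (hE : 2 ≤ E) (hy1 : 1 ≤ y)
    (hii : 4 * (Real.log ((y : ℝ) ^ n1)
      + n1.factorial / (m : ℝ) ^ n1 * (K * z * Real.log z)) ≤ Real.log E) :
    4 * (((tup L₁ n) ×ˢ (tup L₂ n)).filter (fun c => E < sm z (dd c))).card ≤ m ^ (2 * n) := by
  classical
  set P := (tup L₁ n) ×ˢ (tup L₂ n) with hP
  have hlogE : 0 < Real.log E := Real.log_pos (by exact_mod_cast (by omega : 1 < E))
  have hsum := sum_log_sm (fun l hl => (h1 l hl).1) (fun l hl => (h2 l hl).1) hd hm hc1 hc2 hy1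
    (fun l hl => by
      rcases Finset.mem_union.1 hl with h | h
      · exact (h1 l h).2
      · exact (h2 l h).2) hn1 z (lt_of_le_of_lt hyn hK)
  have hge : ((P.filter (fun c => E < sm z (dd c))).card : ℝ) * Real.log E ≤
      ∑ c ∈ P, Real.log (sm z (dd c)) := by
    calc ((P.filter (fun c => E < sm z (dd c))).card : ℝ) * Real.log E
        = ∑ _c ∈ P.filter (fun c => E < sm z (dd c)), Real.log E := by
          rw [Finset.sum_const, nsmul_eq_mul]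
      _ ≤ ∑ c ∈ P.filter (fun c => E < sm z (dd c)), Real.log (sm z (dd c)) := by
          refine Finset.sum_le_sum fun c hc => ?_
          refine Real.log_le_log (by exact_mod_cast (by omega : 0 < E)) ?_
          exact_mod_cast (Finset.mem_filter.1 hc).2.le
      _ ≤ ∑ c ∈ P, Real.log (sm z (dd c)) := by
          refine Finset.sum_le_sum_of_subset_of_nonneg (Finset.filter_subset _ _) fun c _ _ => ?_
          exact Real.log_nonneg (by exact_mod_cast Fin_sm_pos z (dd c))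
  have hpow : (0 : ℝ) ≤ (m : ℝ) ^ (2 * n) := by positivity
  have hfin : (4 * ((P.filter (fun c => E < sm z (dd c))).card : ℝ)) * Real.log E ≤
      (m : ℝ) ^ (2 * n) * Real.log E := by
    have e1 := mul_le_mul_of_nonneg_left hii hpow
    have e2 := hge.trans hsum
    linarith
  have h3 := le_of_mul_le_mul_right hfin hlogE
  exact_mod_cast h3

private theorem Fin_end {M t Ω E H F τ : ℕ} (hM : 1 ≤ M) (ht : M * M ≤ 4 * t)
    (h : t ^ 2 ≤ M * (2 * Ω) * (F * M * (M + 2 * M * τ ^ 2))) (hΩ : Ω ≤ 2 * (E * H)) :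
    M ≤ 64 * E * H * F * (1 + 2 * τ ^ 2) := by
  have h1 : (M * M) ^ 2 ≤ 16 * t ^ 2 := by
    calc (M * M) ^ 2 ≤ (4 * t) ^ 2 := Nat.pow_le_pow_left ht 2
      _ = 16 * t ^ 2 := by ring
  have h2 : M * (2 * Ω) * (F * M * (M + 2 * M * τ ^ 2)) ≤
      M * (2 * (2 * (E * H))) * (F * M * (M + 2 * M * τ ^ 2)) :=
    Nat.mul_le_mul_right _ (Nat.mul_le_mul_left _ (Nat.mul_le_mul_left _ hΩ))
  have h3 : (M ^ 3) * M ≤ (M ^ 3) * (64 * E * H * F * (1 + 2 * τ ^ 2)) := by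
    calc (M ^ 3) * M = (M * M) ^ 2 := by ring
      _ ≤ 16 * t ^ 2 := h1
      _ ≤ 16 * (M * (2 * (2 * (E * H))) * (F * M * (M + 2 * M * τ ^ 2))) :=
          Nat.mul_le_mul_left _ (h.trans h2)
      _ = (M ^ 3) * (64 * E * H * F * (1 + 2 * τ ^ 2)) := by ring
  exact Nat.le_of_mul_le_mul_left h3 (pow_pos hM 3)

theorem fin_main {L₁ L₂ : Finset ℕ} {m y z N n n1 nz K E H τ : ℕ} {Gd : Finset ℕ}
    (h1 : ∀ l ∈ L₁, l.Prime ∧ l ≤ y) (h2 : ∀ l ∈ L₂, l.Prime ∧ l ≤ y) (hd : Disjoint L₁ L₂)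
    (hc1 : L₁.card = m) (hc2 : L₂.card = m) (hm : 1 ≤ m) (hn : 1 ≤ n) (hyn : y ^ n ≤ N)
    (hn1 : n1 ≤ n) (hnz : nz ≤ n) (hz : y ^ nz ≤ z) (hK : N < 2 ^ K) (hH : N < (H + 1) ^ 5)
    (hE : 2 ≤ E) (hτ : ∀ D, 1 ≤ D → D ≤ N → D.divisors.card ≤ τ)
    (hbad : ∀ p, p.Prime → z < p → p ≤ N → p ∉ Gd → ∀ a, 1 ≤ a → a ≤ y → p ^ 2 ∣ a ^ p - a)
    (hGd : ∀ p ∈ Gd, p.Prime ∧ z < p)
    (hi : 4 * Gd.card * nz.factorial ≤ m ^ nz)
    (hii : 4 * (Real.log ((y : ℝ) ^ n1)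
      + n1.factorial / (m : ℝ) ^ n1 * (K * z * Real.log z)) ≤ Real.log E) :
    m ^ n ≤ 64 * E * H * n.factorial * (1 + 2 * τ ^ 2) := by
  classical
  have hy1 : 1 ≤ y := by
    have : 0 < L₁.card := by omega
    obtain ⟨l, hl⟩ := Finset.card_pos.1 this
    exact (h1 l hl).1.one_lt.le.trans (h1 l hl).2
  set A := tup L₁ n with hA
  set B := tup L₂ n with hB
  have hAc : A.card = m ^ n := by rw [hA, Fin_card_tup, hc1]
  have hBc : B.card = m ^ n := by rw [hB, Fin_card_tup, hc2]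
  have hX1 := Fin_X1 (n := n) h1 h2 hd hc1 hc2 hnz hz hGd hi
  have hX2 := Fin_X2 h1 h2 hd hc1 hc2 hm hyn hn1 hK hE hy1 hii
  rw [← hA, ← hB] at hX1 hX2
  set P := A ×ˢ B with hP
  set X1 := P.filter (fun c => ∃ p ∈ Gd, p ∣ dd c) with hX1d
  set X2 := P.filter (fun c => E < sm z (dd c)) with hX2d
  set T1 := P.filter (fun c => (¬ (∃ p ∈ Gd, p ∣ dd c)) ∧ ¬ E < sm z (dd c) ∧ pr c.2 < pr c.1)
    with hT1d
  set T2 := P.filter (fun c => (¬ (∃ p ∈ Gd, p ∣ dd c)) ∧ ¬ E < sm z (dd c) ∧ pr c.1 < pr c.2)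
    with hT2d
  have hPc : P.card = m ^ (2 * n) := by
    rw [hP, Finset.card_product, hAc, hBc, ← pow_add]
    congr 1
    omega
  have hne : ∀ c ∈ P, pr c.1 ≠ pr c.2 := fun c hc =>
    Fin_pr_ne (fun l hl => (h1 l hl).1) (fun l hl => (h2 l hl).1) hd hn
      (Finset.mem_product.1 hc).1 (Finset.mem_product.1 hc).2
  have hcov : P ⊆ X1 ∪ X2 ∪ (T1 ∪ T2) := by
    intro c hc
    simp only [Finset.mem_union, hX1d, hX2d, hT1d, hT2d, Finset.mem_filter, hc, true_and]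
    by_cases ha : ∃ p ∈ Gd, p ∣ dd c
    · exact Or.inl (Or.inl ha)
    · by_cases hb : E < sm z (dd c)
      · exact Or.inl (Or.inr hb)
      · rcases lt_or_gt_of_ne (hne c hc) with h | h
        · exact Or.inr (Or.inr ⟨ha, hb, h⟩)
        · exact Or.inr (Or.inl ⟨ha, hb, h⟩)
  have hcount : P.card ≤ X1.card + X2.card + (T1.card + T2.card) :=
    (Finset.card_le_card hcov).trans ((Finset.card_union_le _ _).trans
      (Nat.add_le_add (Finset.card_union_le _ _) (Finset.card_union_le _ _)))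
  -- the decomposition of the distance
  have hdec : ∀ c ∈ P, (¬ (∃ p ∈ Gd, p ∣ dd c)) → (¬ E < sm z (dd c)) →
      ∃ w ∈ Om E H, ∃ e ∈ ({2, 3} : Finset ℕ), ∃ X : ℕ, 1 ≤ X ∧ dd c = w * X ^ e := by
    intro c hc hg hs
    obtain ⟨hca, hcb⟩ := Finset.mem_product.1 hc
    have hua : pr c.1 ≤ N := (Fin_pr_le (fun l hl => (h1 l hl).2) hca).trans hyn
    have hub : pr c.2 ≤ N := (Fin_pr_le (fun l hl => (h2 l hl).2) hcb).trans hyn
    have hD1 : 1 ≤ dd c := by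
      have := hne c hc
      unfold dd
      omega
    have hDN : dd c ≤ N := by
      unfold dd
      omega
    refine decomp hD1 hDN hH (not_lt.1 hs) fun p hp hzp hpd => ?_
    have hpN : p ≤ N := (Nat.le_of_dvd hD1 hpd).trans hDN
    have hpG : p ∉ Gd := fun h => hg ⟨p, h, hpd⟩
    rw [Fin_dvd_dd] at hpd ⊢
    exact bad_sq hp (hbad p hp hzp hpN hpG)
      (fun i => ⟨(h1 _ (Fin_mem hca i)).1.one_lt.le, (h1 _ (Fin_mem hca i)).2⟩)
      (fun i => ⟨(h2 _ (Fin_mem hcb i)).1.one_lt.le, (h2 _ (Fin_mem hcb i)).2⟩) hpd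
  have hcc1 := cauchy_count A B pr pr n.factorial τ N (Om E H) T1 (Finset.filter_subset _ _)
    (fun t => fibre (fun l hl => (h1 l hl).1) n t) (fun t => fibre (fun l hl => (h2 l hl).1) n t)
    (fun a ha => (Fin_pr_le (fun l hl => (h1 l hl).2) ha).trans hyn) hτ Om_pos
    (fun c hc => by
      obtain ⟨hcP, hg, hs, hlt⟩ := Finset.mem_filter.1 hc
      obtain ⟨w, hw, e, he, X, hX, hDX⟩ := hdec c hcP hg hs
      refine ⟨w, hw, e, he, X, hX, ?_⟩
      rw [← hDX]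
      unfold dd
      omega)
  have hcc2 := cauchy_count B A pr pr n.factorial τ N (Om E H) (T2.image Prod.swap)
    (by
      intro c hc
      obtain ⟨d, hd1, rfl⟩ := Finset.mem_image.1 hc
      have := Finset.mem_product.1 (Finset.mem_filter.1 hd1).1
      exact Finset.mem_product.2 ⟨this.2, this.1⟩)
    (fun t => fibre (fun l hl => (h2 l hl).1) n t) (fun t => fibre (fun l hl => (h1 l hl).1) n t)
    (fun a ha => (Fin_pr_le (fun l hl => (h2 l hl).2) ha).trans hyn) hτ Om_pos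
    (fun c hc => by
      obtain ⟨d, hd1, rfl⟩ := Finset.mem_image.1 hc
      obtain ⟨hcP, hg, hs, hlt⟩ := Finset.mem_filter.1 hd1
      obtain ⟨w, hw, e, he, X, hX, hDX⟩ := hdec d hcP hg hs
      refine ⟨w, hw, e, he, X, hX, ?_⟩
      rw [← hDX]
      simp only [Prod.fst_swap, Prod.snd_swap]
      unfold dd
      omega)
  rw [Finset.card_image_of_injective _ Prod.swap_injective] at hcc2
  rw [hAc, hBc] at hcc1 hcc2
  have hM : 1 ≤ m ^ n := Nat.one_le_pow _ _ hm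
  have hMM : m ^ n * m ^ n = m ^ (2 * n) := by
    rw [← pow_add]
    congr 1
    omega
  have hor : m ^ n * m ^ n ≤ 4 * T1.card ∨ m ^ n * m ^ n ≤ 4 * T2.card := by
    rw [hMM]
    omega
  rcases hor with h | h
  · exact Fin_end hM h hcc1 (Om_card E H)
  · exact Fin_end hM h hcc2 (Om_card E H)

end Pool.Agent.Helper44.FB
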