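import Pool.Agent.Helper44.FB.ParB
import Pool.Agent.Helper44.FB.Fin

/-!
The theorem: for `κ > 5/4` at least `x ^ δ` primes `p ≤ x` have a base `a < (log p) ^ κ` with
nonvanishing Fermat quotient.
-/

namespace Pool.Agent.Helper44.FB

open Finset

theorem main {κ : ℝ} (hκ : 5 / 4 < κ) :
    ∃ δ : ℝ, 0 < δ ∧ ∃ x0 : ℕ, ∀ x : ℕ, x0 ≤ x →
      (x : ℝ) ^ δ ≤ (({p : ℕ | p ≤ x ∧ p.Prime ∧
        ∃ a : ℕ, 0 < a ∧ (a : ℝ) < (Real.log p) ^ κ ∧ ¬ p ^ 2 ∣ a ^ p - a}.ncard : ℕ) : ℝ) := by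
  classical
  obtain ⟨κ', hκ'⟩ : ∃ κ' : ℝ, κ' = min κ (3 / 2) := ⟨_, rfl⟩
  have hk1 : 5 / 4 < κ' := by rw [hκ']; exact lt_min hκ (by norm_num)
  have hk2 : κ' ≤ 3 / 2 := by rw [hκ']; exact min_le_right _ _
  have hk3 : κ' ≤ κ := by rw [hκ']; exact min_le_left _ _
  obtain ⟨δ, hδ, x0, h⟩ := params hk1 hk2
  refine ⟨δ, hδ, x0, fun x hx => ?_⟩
  by_contra hcon
  push Not at hcon
  obtain ⟨L₁, L₂, m, y, z, n, n1, nz, K, E, H, τ, h1, h2, hd, hc1, hc2, hm, hn, hyn, hn1, hnz,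
    hz, hK, hH, hE, hτ, hz3, hyκ, hi, hii, hfin⟩ := h x hx
  obtain ⟨Gd, hGd⟩ : ∃ Gd : Finset ℕ, Gd = (Finset.Icc 1 x).filter (fun p : ℕ => p.Prime ∧ z < p ∧
      ∃ a : ℕ, 1 ≤ a ∧ a ≤ y ∧ ¬ p ^ 2 ∣ a ^ p - a) := ⟨_, rfl⟩
  have hz0 : (0 : ℝ) < z := by exact_mod_cast (by omega : 0 < z)
  have hlz : 1 ≤ Real.log z := by
    rw [Real.le_log_iff_exp_le hz0]
    have h3 : (3 : ℝ) ≤ z := by exact_mod_cast hz3
    have := Real.exp_one_lt_d9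
    linarith
  have hfin' : {p : ℕ | p ≤ x ∧ p.Prime ∧ ∃ a : ℕ, 0 < a ∧ (a : ℝ) < (Real.log p) ^ κ ∧
      ¬ p ^ 2 ∣ a ^ p - a}.Finite :=
    (Set.finite_Iic x).subset (fun p hp => hp.1)
  have hsub : (↑Gd : Set ℕ) ⊆ {p : ℕ | p ≤ x ∧ p.Prime ∧ ∃ a : ℕ, 0 < a ∧
      (a : ℝ) < (Real.log p) ^ κ ∧ ¬ p ^ 2 ∣ a ^ p - a} := by
    intro p hp
    rw [Finset.mem_coe, hGd, Finset.mem_filter] at hp
    obtain ⟨hpx, hpp, hzp, a, ha1, hay, hna⟩ := hp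
    refine ⟨(Finset.mem_Icc.mp hpx).2, hpp, a, by omega, ?_, hna⟩
    have e1 : (a : ℝ) ≤ y := by exact_mod_cast hay
    have e2 : Real.log z < Real.log p := Real.log_lt_log hz0 (by exact_mod_cast hzp)
    have e3 : (Real.log z) ^ κ' < (Real.log p) ^ κ' :=
      Real.rpow_lt_rpow (by linarith) e2 (by linarith)
    have e4 : (Real.log p) ^ κ' ≤ (Real.log p) ^ κ :=
      Real.rpow_le_rpow_of_exponent_le (by linarith) hk3
    linarith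
  have hcard : (Gd.card : ℝ) < (x : ℝ) ^ δ := by
    refine lt_of_le_of_lt ?_ hcon
    have := Set.ncard_le_ncard hsub hfin'
    rw [Set.ncard_coe_finset] at this
    exact_mod_cast this
  have hmain := fin_main (N := x) (Gd := Gd) h1 h2 hd hc1 hc2 hm hn hyn hn1 hnz hz hK hH hE hτ
    (by
      intro p hp hzp hpx hpG a ha1 hay
      by_contra hna
      apply hpG
      rw [hGd, Finset.mem_filter]
      exact ⟨Finset.mem_Icc.mpr ⟨hp.one_lt.le, hpx⟩, hp, hzp, a, ha1, hay, hna⟩)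
    (by
      intro p hp
      rw [hGd, Finset.mem_filter] at hp
      exact ⟨hp.2.1, hp.2.2.1⟩)
    (hi _ hcard) hii
  omega

end Pool.Agent.Helper44.FB
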