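import Pool.Agent.Helper44.FB.Defs

/-!
Collision counts of random products do not increase.

PROOF of `coll_mono`. Put `N_n(r) = #{a in tup L n : (pr a : ZMod q) = r}`; `coll L n q = sum_r N_n(r)^2`.
`N_(n+1)(r) = sum_(l in L) N_n(l⁻¹ r)` (split off the first entry, `Fin.consEquiv`/`Fin.cons`, `l` is a unit
of `ZMod q`), so by Cauchy-Schwarz (`sq_sum_le_card_mul_sum_sq` or `inner_mul_le_norm_mul_norm`)
`sum_r N_(n+1)(r)^2 ≤ |L| sum_l sum_r N_n(l⁻¹ r)^2 = |L|^2 sum_r N_n(r)^2` (multiplication by a unit is a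
bijection of `ZMod q`). Then induction on `n - n1`.
PROOF of `cross_le`. `cross L₁ L₂ n q = sum_r N¹(r) N²(r)` and `2 x y ≤ x^2 + y^2`.
-/

namespace Pool.Agent.Helper44.FB

open Finset

private theorem Mono_pairs {α β κ : Type*} [Fintype κ] [DecidableEq κ] (S : Finset α)
    (T : Finset β) (f : α → κ) (g : β → κ) :
    ((S ×ˢ T).filter (fun c => f c.1 = g c.2)).card =
      ∑ r : κ, (S.filter (fun a => f a = r)).card * (T.filter (fun b => g b = r)).card := by
  classical
  rw [Finset.card_eq_sum_card_fiberwise (f := fun c => f c.1) (t := Finset.univ)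
    (fun _ _ => Finset.mem_coe.2 (Finset.mem_univ _))]
  refine Finset.sum_congr rfl fun r _ => ?_
  rw [← Finset.card_product]
  congr 1
  ext ⟨a, b⟩
  simp only [Finset.mem_filter, Finset.mem_product]
  constructor
  · rintro ⟨⟨⟨ha, hb⟩, h1⟩, h2⟩
    exact ⟨⟨ha, h2⟩, hb, h1.symm.trans h2⟩
  · rintro ⟨⟨ha, h2⟩, hb, h1⟩
    exact ⟨⟨⟨ha, hb⟩, h2.trans h1.symm⟩, h2⟩

private theorem Mono_cross (L₁ L₂ : Finset ℕ) (n q : ℕ) [NeZero q] :
    cross L₁ L₂ n q = ∑ r : ZMod q,
      ((tup L₁ n).filter (fun a => ((pr a : ℕ) : ZMod q) = r)).card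
      * ((tup L₂ n).filter (fun a => ((pr a : ℕ) : ZMod q) = r)).card := by
  rw [← Mono_pairs (tup L₁ n) (tup L₂ n) (fun a => ((pr a : ℕ) : ZMod q))
    (fun a => ((pr a : ℕ) : ZMod q))]
  unfold cross
  congr 1
  ext c
  simp only [Finset.mem_filter, ZMod.natCast_eq_natCast_iff]

private theorem Mono_succ {n : ℕ} (a : Fin (n + 1) → ℕ) : pr a = a 0 * pr (Fin.tail a) :=
  Fin.prod_univ_succ a

private theorem Mono_cons {n : ℕ} (l : ℕ) (b : Fin n → ℕ) :
    pr (Fin.cons l b : Fin (n + 1) → ℕ) = l * pr b := by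
  rw [Mono_succ]
  rfl

private theorem Mono_split (L : Finset ℕ) (n q : ℕ) (r : ZMod q) :
    ((tup L (n + 1)).filter (fun a => ((pr a : ℕ) : ZMod q) = r)).card
      = ∑ l ∈ L, ((tup L n).filter (fun a => ((l * pr a : ℕ) : ZMod q) = r)).card := by
  classical
  rw [Finset.card_eq_sum_card_fiberwise (f := fun a : Fin (n + 1) → ℕ => a 0) (t := L)]
  · refine Finset.sum_congr rfl fun l hl => ?_
    refine Finset.card_nbij' (fun a => Fin.tail a) (fun b => Fin.cons l b) ?_ ?_ ?_ ?_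
    · intro a ha
      simp only [Finset.coe_filter, Finset.mem_filter, Fintype.mem_piFinset,
        Set.mem_ofPred_eq] at ha ⊢
      obtain ⟨⟨ha, hr⟩, h0⟩ := ha
      refine ⟨fun i => ha i.succ, ?_⟩
      rw [← hr, Mono_succ a, h0]
    · intro b hb
      simp only [Finset.coe_filter, Finset.mem_filter, Fintype.mem_piFinset,
        Set.mem_ofPred_eq] at hb ⊢
      obtain ⟨hb, hr⟩ := hb
      refine ⟨⟨fun i => ?_, ?_⟩, rfl⟩
      · refine Fin.cases ?_ (fun j => ?_) i
        · exact hl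
        · exact hb j
      · rw [← hr, Mono_cons l b]
    · intro a ha
      simp only [Finset.coe_filter, Finset.mem_filter, Fintype.mem_piFinset,
        Set.mem_ofPred_eq] at ha
      obtain ⟨_, h0⟩ := ha
      change Fin.cons l (Fin.tail a) = a
      rw [← h0]
      exact Fin.cons_self_tail a
    · intro b _
      rfl
  · intro a ha
    simp only [Finset.coe_filter, Fintype.mem_piFinset, Set.mem_ofPred_eq] at ha
    exact ha.1 0

private theorem Mono_step {L : Finset ℕ} {q : ℕ} [NeZero q] (hL : ∀ l ∈ L, Nat.Coprime l q)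
    (n : ℕ) : coll L (n + 1) q ≤ L.card ^ 2 * coll L n q := by
  have e0 : coll L (n + 1) q = ∑ r : ZMod q,
      ((tup L (n + 1)).filter (fun a => ((pr a : ℕ) : ZMod q) = r)).card
      * ((tup L (n + 1)).filter (fun a => ((pr a : ℕ) : ZMod q) = r)).card :=
    Mono_cross L L (n + 1) q
  have e1 : ∀ l ∈ L, ∑ r : ZMod q,
      ((tup L n).filter (fun a => ((l * pr a : ℕ) : ZMod q) = r)).card ^ 2 = coll L n q := by
    intro l hl
    simp only [sq]
    rw [← Mono_pairs (tup L n) (tup L n) (fun a => ((l * pr a : ℕ) : ZMod q))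
      (fun a => ((l * pr a : ℕ) : ZMod q))]
    unfold coll
    congr 1
    ext c
    simp only [Finset.mem_filter, ZMod.natCast_eq_natCast_iff]
    refine and_congr_right fun _ => ⟨fun h => ?_, fun h => h.mul_left l⟩
    exact Nat.ModEq.cancel_left_of_coprime (Nat.coprime_comm.1 (hL l hl)) h
  calc coll L (n + 1) q
      = ∑ r : ZMod q, (∑ l ∈ L,
          ((tup L n).filter (fun a => ((l * pr a : ℕ) : ZMod q) = r)).card) ^ 2 := by
        rw [e0]
        refine Finset.sum_congr rfl fun r _ => ?_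
        rw [Mono_split L n q r, sq]
    _ ≤ ∑ r : ZMod q, L.card * ∑ l ∈ L,
          ((tup L n).filter (fun a => ((l * pr a : ℕ) : ZMod q) = r)).card ^ 2 :=
        Finset.sum_le_sum fun r _ => sq_sum_le_card_mul_sum_sq
    _ = L.card * ∑ l ∈ L, ∑ r : ZMod q,
          ((tup L n).filter (fun a => ((l * pr a : ℕ) : ZMod q) = r)).card ^ 2 := by
        rw [← Finset.mul_sum, Finset.sum_comm]
    _ = L.card * ∑ l ∈ L, coll L n q := by
        rw [Finset.sum_congr rfl e1]
    _ = L.card ^ 2 * coll L n q := by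
        rw [Finset.sum_const, smul_eq_mul]
        ring

theorem coll_mono {L : Finset ℕ} {q : ℕ} (hq : 0 < q) (hL : ∀ l ∈ L, Nat.Coprime l q)
    {n1 n : ℕ} (h : n1 ≤ n) : coll L n q ≤ L.card ^ (2 * (n - n1)) * coll L n1 q := by
  have : NeZero q := ⟨hq.ne'⟩
  obtain ⟨d, rfl⟩ := Nat.exists_eq_add_of_le h
  rw [Nat.add_sub_cancel_left]
  clear h
  induction d with
  | zero => simp
  | succ d ih =>
    calc coll L (n1 + (d + 1)) q ≤ L.card ^ 2 * coll L (n1 + d) q := Mono_step hL (n1 + d)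
      _ ≤ L.card ^ 2 * (L.card ^ (2 * d) * coll L n1 q) := Nat.mul_le_mul_left _ ih
      _ = L.card ^ (2 * (d + 1)) * coll L n1 q := by ring

theorem cross_le (L₁ L₂ : Finset ℕ) (n : ℕ) {q : ℕ} (hq : 0 < q) :
    2 * cross L₁ L₂ n q ≤ coll L₁ n q + coll L₂ n q := by
  have : NeZero q := ⟨hq.ne'⟩
  have h1 : coll L₁ n q = cross L₁ L₁ n q := rfl
  have h2 : coll L₂ n q = cross L₂ L₂ n q := rfl
  rw [h1, h2, Mono_cross, Mono_cross, Mono_cross, ← Finset.sum_add_distrib, Finset.mul_sum]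
  refine Finset.sum_le_sum fun r _ => ?_
  generalize ((tup L₁ n).filter (fun a => ((pr a : ℕ) : ZMod q) = r)).card = x
  generalize ((tup L₂ n).filter (fun a => ((pr a : ℕ) : ZMod q) = r)).card = y
  have := two_mul_le_add_sq (x : ℤ) (y : ℤ)
  zify
  nlinarith [this]

end Pool.Agent.Helper44.FB
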