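import Mathlib

/-!
The choice of the parameters: scalar inequalities.
-/

namespace Pool.Agent.Helper44.FB

open Finset Filter

theorem ParA_fac {k y m : ℕ} {θ : ℝ} (h : (k : ℝ) * (y : ℝ) ^ θ ≤ m) :
    (k.factorial : ℝ) * ((y : ℝ) ^ k) ^ θ ≤ (m : ℝ) ^ k := by
  have h0 : (0 : ℝ) ≤ y := Nat.cast_nonneg y
  have h1 : ((y : ℝ) ^ k) ^ θ = ((y : ℝ) ^ θ) ^ k := by
    rw [← Real.rpow_natCast, ← Real.rpow_natCast, ← Real.rpow_mul h0, ← Real.rpow_mul h0, mul_comm]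
  have h2 : (k.factorial : ℝ) ≤ (k : ℝ) ^ k := by exact_mod_cast Nat.factorial_le_pow k
  have h3 : 0 ≤ (y : ℝ) ^ θ := Real.rpow_nonneg h0 θ
  calc (k.factorial : ℝ) * ((y : ℝ) ^ k) ^ θ = k.factorial * ((y : ℝ) ^ θ) ^ k := by rw [h1]
    _ ≤ (k : ℝ) ^ k * ((y : ℝ) ^ θ) ^ k := mul_le_mul_of_nonneg_right h2 (by positivity)
    _ = ((k : ℝ) * (y : ℝ) ^ θ) ^ k := by rw [mul_pow]
    _ ≤ (m : ℝ) ^ k := pow_le_pow_left₀ (by positivity) h k

/-- The basic lower bound, in exponential form. -/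
theorem ParA_low {k y m t : ℕ} {θ : ℝ} (hθ : 0 ≤ θ) (hy : 2 ≤ y) (ht : 1 ≤ t)
    (hk : k = Nat.log y t) (h : (k : ℝ) * (y : ℝ) ^ θ ≤ m) :
    Real.exp (θ * (Real.log t - Real.log y)) * k.factorial ≤ (m : ℝ) ^ k := by
  have hy0 : (0 : ℝ) < y := by exact_mod_cast (by omega : 0 < y)
  have ht0 : (0 : ℝ) < t := by exact_mod_cast (by omega : 0 < t)
  have h1 : t < y ^ (k + 1) := by
    rw [hk]; exact Nat.lt_pow_succ_log_self (by omega) t
  have h2 : (t : ℝ) < (y : ℝ) ^ (k + 1) := by exact_mod_cast h1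
  have h3 : Real.log t < (k + 1) * Real.log y := by
    have := Real.log_lt_log ht0 h2
    rw [Real.log_pow] at this
    push_cast at this
    exact this
  have h4 : ((y : ℝ) ^ k) ^ θ = Real.exp (θ * (k * Real.log y)) := by
    rw [Real.rpow_def_of_pos (by positivity), Real.log_pow]
    congr 1
    ring
  have h5 : Real.exp (θ * (Real.log t - Real.log y)) ≤ ((y : ℝ) ^ k) ^ θ := by
    rw [h4]
    apply Real.exp_le_exp.mpr
    apply mul_le_mul_of_nonneg_left _ hθ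
    linarith
  calc Real.exp (θ * (Real.log t - Real.log y)) * k.factorial
      ≤ ((y : ℝ) ^ k) ^ θ * k.factorial := mul_le_mul_of_nonneg_right h5 (by positivity)
    _ = k.factorial * ((y : ℝ) ^ k) ^ θ := mul_comm _ _
    _ ≤ _ := ParA_fac h

theorem ParA_log_le {ε : ℝ} (hε : 0 < ε) : ∀ᶠ t : ℝ in atTop, Real.log t ≤ ε * t := by
  have h := Real.isLittleO_log_id_atTop.bound hε
  filter_upwards [h, eventually_ge_atTop (1 : ℝ)] with t ht h1
  have h2 : ‖Real.log t‖ = Real.log t := by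
    rw [Real.norm_eq_abs, abs_of_nonneg (Real.log_nonneg h1)]
  have h3 : ‖(id t : ℝ)‖ = t := by
    rw [Real.norm_eq_abs]
    simp only [id]
    rw [abs_of_nonneg (by linarith)]
  rw [h2, h3] at ht
  exact ht

theorem ParA_ev {κ γ η θ c C y0 δ : ℝ} (hκ0 : 0 < κ) (hγ0 : 0 < γ) (hη0 : 0 < η) (hθ0 : 0 < θ)
    (hc0 : 0 < c) (hδ : δ = θ / (8 * c)) : ∀ᶠ ℓ : ℝ in atTop,
      1 ≤ ℓ ∧ 4 * c * y0 ≤ ℓ ∧ 12 * c ≤ ℓ ∧
      Real.log ℓ ≤ (1 / κ + η) * (κ * (Real.log ℓ - Real.log (2 * c)) - Real.log 2) ∧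
      Real.log 4 + δ * ℓ ≤ θ * (ℓ / (2 * c) - κ * Real.log ℓ) ∧
      Real.log (2 * ℓ + 2) + Real.log ℓ + κ * Real.log ℓ ≤ ℓ / (2 * c) ∧
      Real.log 64 + Real.log 3 + 2 * Real.log C + κ * Real.log ℓ + 1 ≤ γ / 4 * ℓ := by
  have hlg := Real.tendsto_log_atTop
  have e1 := hlg.eventually_ge_atTop
    ((1 / κ + η) * (κ * Real.log (2 * c) + Real.log 2) / (κ * η))
  have e2 := @ParA_log_le (1 / (16 * c * κ)) (by positivity)
  have e3 := @ParA_log_le (1 / (16 * c)) (by positivity)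
  have e4 := @ParA_log_le (γ / (16 * κ)) (by positivity)
  filter_upwards [eventually_ge_atTop (1 : ℝ),
    eventually_ge_atTop (4 * c * y0 : ℝ), eventually_ge_atTop (12 * c : ℝ), e1, e2, e3, e4,
    eventually_ge_atTop (16 * c * Real.log 4 / θ : ℝ),
    eventually_ge_atTop (16 * c * Real.log 4 : ℝ),
    eventually_ge_atTop (16 * (Real.log 64 + Real.log 3 + 2 * Real.log C + 1) / γ : ℝ)]
    with ℓ h1 h3 h4 g1 g2 g3 g4 g5 g6 g7
  have hℓ0 : 0 < ℓ := by linarith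
  have k1 : κ * Real.log ℓ ≤ ℓ / (16 * c) := by
    calc κ * Real.log ℓ ≤ κ * (1 / (16 * c * κ) * ℓ) := mul_le_mul_of_nonneg_left g2 hκ0.le
      _ = ℓ / (16 * c) := by field_simp
  have k5 : ℓ / (2 * c) = 8 * (ℓ / (16 * c)) := by field_simp; ring
  have k6 : 0 ≤ ℓ / (16 * c) := by positivity
  refine ⟨h1, h3, h4, ?_, ?_, ?_, ?_⟩
  · rw [div_le_iff₀ (by positivity)] at g1
    have : (1 / κ + η) * (κ * (Real.log ℓ - Real.log (2 * c)) - Real.log 2)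
        = Real.log ℓ + Real.log ℓ * (κ * η)
          - (1 / κ + η) * (κ * Real.log (2 * c) + Real.log 2) := by
      field_simp
      ring
    rw [this]
    linarith
  · have k2 : Real.log 4 ≤ θ * (ℓ / (16 * c)) := by
      rw [div_le_iff₀ hθ0] at g5
      have : θ * (ℓ / (16 * c)) = (ℓ * θ) / (16 * c) := by ring
      rw [this, le_div_iff₀ (by positivity)]
      linarith
    have k3 : θ * (κ * Real.log ℓ) ≤ θ * (ℓ / (16 * c)) := mul_le_mul_of_nonneg_left k1 hθ0.le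
    have k4 : δ * ℓ = 2 * (θ * (ℓ / (16 * c))) := by rw [hδ]; field_simp; ring
    have k7 : θ * (ℓ / (2 * c) - κ * Real.log ℓ)
        = 8 * (θ * (ℓ / (16 * c))) - θ * (κ * Real.log ℓ) := by rw [k5]; ring
    have k8 : 0 ≤ θ * (ℓ / (16 * c)) := by positivity
    rw [k4, k7]
    linarith
  · have k2 : Real.log ℓ ≤ ℓ / (16 * c) := by
      calc Real.log ℓ ≤ 1 / (16 * c) * ℓ := g3
        _ = ℓ / (16 * c) := by ring
    have k3 : Real.log (2 * ℓ + 2) ≤ Real.log 4 + Real.log ℓ := by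
      rw [← Real.log_mul (by norm_num) hℓ0.ne']
      apply Real.log_le_log (by linarith)
      linarith
    have k4 : Real.log 4 ≤ ℓ / (16 * c) := by
      rw [le_div_iff₀ (by positivity)]
      linarith
    rw [k5]
    linarith
  · have k2 : κ * Real.log ℓ ≤ ℓ * γ / 16 := by
      calc κ * Real.log ℓ ≤ κ * (γ / (16 * κ) * ℓ) := mul_le_mul_of_nonneg_left g4 hκ0.le
        _ = ℓ * γ / 16 := by field_simp
    rw [div_le_iff₀ hγ0] at g7
    have k3 : γ / 4 * ℓ = ℓ * γ / 4 := by ring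
    have k7 : 0 ≤ ℓ * γ := by positivity
    rw [k3]
    linarith

/-- Scalar part of (ii). -/
theorem ParA_ii {θ l μ A B κ L c ℓ : ℝ} (hθ : 1 / 5 < θ) (hθ1 : θ ≤ 1) (hl : 0 ≤ l) (hμ : 0 ≤ μ)
    (hμle : μ ≤ κ * L) (h7 : A + B + κ * L ≤ ℓ / (2 * c)) (hlge : ℓ / (2 * c) ≤ l) :
    -(θ * (10 * l - μ)) + (A + l + B) ≤ 0 := by
  have k1 : 2 * l ≤ (10 * θ) * l := mul_le_mul_of_nonneg_right (by linarith) hl
  have k2 : θ * μ ≤ κ * L := (mul_le_of_le_one_left hμ hθ1).trans hμle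
  have k3 : θ * (10 * l - μ) = (10 * θ) * l - θ * μ := by ring
  rw [k3]
  linarith

/-- Scalar part of (iii). -/
theorem ParA_iii {θ l μ κ L c ℓ γ η S3 S64 SC : ℝ} (hθ1 : θ ≤ 1)
    (hθγ : 1 / 5 + 7 / 8 * γ = θ) (hγ : 0 < γ) (hη : η = γ / 16) (hμ : 0 ≤ μ) (hμle : μ ≤ κ * L)
    (hc0 : 0 < c) (hc : 320 ≤ c * γ) (hℓ : 0 < ℓ) (hlle : l ≤ ℓ / c)
    (h8 : S64 + S3 + 2 * SC + κ * L + 1 ≤ γ / 4 * ℓ) :
    S64 + 80 * l + ℓ / 5 + (S3 + 2 * SC + 2 * (η * ℓ)) < θ * (ℓ - μ) := by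
  have k1 : 80 * l ≤ γ / 4 * ℓ := by
    calc 80 * l ≤ 80 * (ℓ / c) := by linarith
      _ = ℓ * (80 / c) := by ring
      _ ≤ ℓ * (γ / 4) := by
          apply mul_le_mul_of_nonneg_left _ hℓ.le
          rw [div_le_iff₀ hc0]
          linarith
      _ = γ / 4 * ℓ := by ring
  have k2 : θ * μ ≤ κ * L := (mul_le_of_le_one_left hμ hθ1).trans hμle
  have k3 : 2 * (η * ℓ) = γ / 8 * ℓ := by rw [hη]; ring
  have k4 : θ * (ℓ - μ) = ℓ / 5 + 7 / 8 * γ * ℓ - θ * μ := by rw [← hθγ]; ring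
  have k5 : 0 < γ * ℓ := by positivity
  rw [k3, k4]
  linarith

/-- Exponential part of (iii). -/
theorem ParA_exp {z H τ : ℕ} {l ℓ C η R : ℝ} (hexpz : Real.exp l = z) (hC1 : 1 ≤ C) (hη : 0 ≤ η)
    (hℓ : 0 ≤ ℓ) (e1 : (H : ℝ) ≤ Real.exp (ℓ / 5)) (e2 : (τ : ℝ) ≤ C * Real.exp (η * ℓ))
    (h : Real.log 64 + 80 * l + ℓ / 5 + (Real.log 3 + 2 * Real.log C + 2 * (η * ℓ)) < R) :
    (64 : ℝ) * (z : ℝ) ^ 80 * H * (1 + 2 * (τ : ℝ) ^ 2) < Real.exp R := by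
  have hCe : 1 ≤ C * Real.exp (η * ℓ) := by
    have : 1 ≤ Real.exp (η * ℓ) := Real.one_le_exp (by positivity)
    exact one_le_mul_of_one_le_of_one_le hC1 this
  have e3 : 1 + 2 * (τ : ℝ) ^ 2 ≤ 3 * (C * Real.exp (η * ℓ)) ^ 2 := by
    have k1 : (τ : ℝ) ^ 2 ≤ (C * Real.exp (η * ℓ)) ^ 2 :=
      pow_le_pow_left₀ (by positivity) e2 2
    have k2 : 1 ≤ (C * Real.exp (η * ℓ)) ^ 2 := one_le_pow₀ hCe
    linarith
  have hCpos : 0 < C := by linarith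
  have e4 : 3 * (C * Real.exp (η * ℓ)) ^ 2
      = Real.exp (Real.log 3 + 2 * Real.log C + 2 * (η * ℓ)) := by
    rw [Real.exp_add, Real.exp_add, Real.exp_log (by norm_num)]
    have k1 : Real.exp (2 * Real.log C) = C ^ 2 := by
      rw [two_mul, Real.exp_add, Real.exp_log hCpos]; ring
    have k2 : Real.exp (2 * (η * ℓ)) = Real.exp (η * ℓ) ^ 2 := by
      rw [two_mul, Real.exp_add]; ring
    rw [k1, k2]; ring
  have e5 : (64 : ℝ) * (z : ℝ) ^ 80 = Real.exp (Real.log 64 + 80 * l) := by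
    rw [Real.exp_add, Real.exp_log (by norm_num), ← hexpz, ← Real.exp_nat_mul]
    norm_num
  calc (64 : ℝ) * (z : ℝ) ^ 80 * H * (1 + 2 * (τ : ℝ) ^ 2)
      ≤ Real.exp (Real.log 64 + 80 * l) * Real.exp (ℓ / 5)
        * Real.exp (Real.log 3 + 2 * Real.log C + 2 * (η * ℓ)) := by
        rw [← e4, ← e5]
        apply mul_le_mul _ e3 (by positivity) (by positivity)
        apply mul_le_mul_of_nonneg_left e1 (by positivity)
    _ = Real.exp (Real.log 64 + 80 * l + ℓ / 5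
        + (Real.log 3 + 2 * Real.log C + 2 * (η * ℓ))) := by
        rw [← Real.exp_add, ← Real.exp_add]
    _ < _ := Real.exp_lt_exp.mpr h

end Pool.Agent.Helper44.FB
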