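import Pool.Agent.Helper44.FB.Cheb
import Pool.Agent.Helper44.FB.ParA
import Pool.Agent.Helper89.SLE.Div

/-!
The choice of the parameters.
-/

namespace Pool.Agent.Helper44.FB

open Finset Filter

/-- The choice of `z` and `y` and their logarithms. -/
theorem Par_zy {κ c ℓ : ℝ} (hκ : 1 ≤ κ) (hc10 : 10 ≤ c) (h4 : 12 * c ≤ ℓ) (y0 : ℕ)
    (h3 : 4 * c * y0 ≤ ℓ) :
    ∃ z y : ℕ, 3 ≤ z ∧ 3 ≤ y ∧ y0 ≤ y ∧ (z : ℝ) ^ 10 ≤ Real.exp ℓ ∧
      (y : ℝ) ≤ (Real.log z) ^ κ ∧ Real.log z ≤ ℓ / c ∧ ℓ / (2 * c) ≤ Real.log z ∧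
      6 ≤ Real.log z ∧ Real.log z ≤ ℓ ∧ Real.log y ≤ κ * Real.log ℓ ∧
      κ * (Real.log ℓ - Real.log (2 * c)) - Real.log 2 ≤ Real.log y ∧ 1 ≤ Real.log y := by
  have hc0 : 0 < c := by linarith
  have hκ0 : 0 < κ := by linarith
  have hℓpos : 0 < ℓ := by linarith
  have hl2 : Real.log 2 < 1 := by
    have := Real.log_two_lt_d9; linarith
  obtain ⟨Z, hZ⟩ : ∃ Z : ℝ, Z = Real.exp (ℓ / c) := ⟨_, rfl⟩
  have hℓc : 12 ≤ ℓ / c := by rw [le_div_iff₀ hc0]; exact h4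
  have hZ12 : 12 < Z := by
    rw [hZ]
    have := Real.add_one_le_exp (ℓ / c)
    linarith
  obtain ⟨z, hz⟩ : ∃ z : ℕ, z = ⌊Z⌋₊ := ⟨_, rfl⟩
  have hzle : (z : ℝ) ≤ Z := by rw [hz]; exact Nat.floor_le (by linarith)
  have hzge : Z / 2 ≤ z := by
    have := Nat.lt_floor_add_one Z
    rw [← hz] at this
    linarith
  have hz6 : (6 : ℝ) < z := by linarith
  have hz3 : 3 ≤ z := by
    have : (3 : ℝ) ≤ z := by linarith
    exact_mod_cast this
  have hz0 : (0 : ℝ) < z := by linarith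
  obtain ⟨l, hl⟩ : ∃ l : ℝ, l = Real.log z := ⟨_, rfl⟩
  have hexpz : Real.exp l = z := by rw [hl]; exact Real.exp_log hz0
  have hlle : l ≤ ℓ / c := by
    rw [hl, ← Real.log_exp (ℓ / c), ← hZ]
    exact Real.log_le_log hz0 hzle
  have hlge : ℓ / (2 * c) ≤ l := by
    have e : Real.log (Z / 2) ≤ l := by
      rw [hl]; exact Real.log_le_log (by linarith) hzge
    rw [Real.log_div (by linarith) (by norm_num), hZ, Real.log_exp] at e
    have : ℓ / (2 * c) = ℓ / c / 2 := by field_simp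
    rw [this]
    linarith
  have hℓ2c : 6 ≤ ℓ / (2 * c) := by
    rw [le_div_iff₀ (by positivity)]; linarith
  have hl6 : 6 ≤ l := by linarith
  have hlℓ : l ≤ ℓ := by
    refine hlle.trans ?_
    rw [div_le_iff₀ hc0]
    exact le_mul_of_one_le_right hℓpos.le (by linarith)
  obtain ⟨Y, hY⟩ : ∃ Y : ℝ, Y = l ^ κ := ⟨_, rfl⟩
  have hYl : l ≤ Y := by
    rw [hY]
    calc l = l ^ (1 : ℝ) := (Real.rpow_one l).symm
      _ ≤ l ^ κ := Real.rpow_le_rpow_of_exponent_le (by linarith) (by linarith)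
  obtain ⟨y, hy⟩ : ∃ y : ℕ, y = ⌊Y⌋₊ := ⟨_, rfl⟩
  have hyle : (y : ℝ) ≤ Y := by rw [hy]; exact Nat.floor_le (by linarith)
  have hyge : Y / 2 ≤ y := by
    have := Nat.lt_floor_add_one Y
    rw [← hy] at this
    linarith
  have hy3 : (3 : ℝ) ≤ y := by linarith
  have hy3' : 3 ≤ y := by exact_mod_cast hy3
  have hypos : (0 : ℝ) < y := by linarith
  have hyy0 : y0 ≤ y := by
    have : (y0 : ℝ) ≤ y := by
      have e1 : (y0 : ℝ) ≤ ℓ / (4 * c) := by
        rw [le_div_iff₀ (by positivity)]; linarith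
      have e2 : ℓ / (4 * c) = ℓ / (2 * c) / 2 := by field_simp; ring
      linarith
    exact_mod_cast this
  obtain ⟨μ, hμ⟩ : ∃ μ : ℝ, μ = Real.log y := ⟨_, rfl⟩
  have hμ1 : 1 ≤ μ := by
    rw [hμ, Real.le_log_iff_exp_le hypos]
    have := Real.exp_one_lt_d9
    linarith
  have hlogY : Real.log Y = κ * Real.log l := by
    rw [hY, Real.log_rpow (by linarith)]
  have hμle : μ ≤ κ * Real.log ℓ := by
    have e : μ ≤ Real.log Y := by rw [hμ]; exact Real.log_le_log hypos hyle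
    rw [hlogY] at e
    exact e.trans (mul_le_mul_of_nonneg_left (Real.log_le_log (by linarith) hlℓ) hκ0.le)
  have hμge : κ * (Real.log ℓ - Real.log (2 * c)) - Real.log 2 ≤ μ := by
    have e : Real.log (Y / 2) ≤ μ := by
      rw [hμ]; exact Real.log_le_log (by linarith) hyge
    rw [Real.log_div (by linarith) (by norm_num), hlogY] at e
    have e2 : Real.log ℓ - Real.log (2 * c) ≤ Real.log l := by
      rw [← Real.log_div hℓpos.ne' (by positivity)]
      exact Real.log_le_log (by positivity) hlge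
    have e3 := mul_le_mul_of_nonneg_left e2 hκ0.le
    linarith
  have hz10 : (z : ℝ) ^ 10 ≤ Real.exp ℓ := by
    rw [← hexpz, ← Real.exp_nat_mul]
    apply Real.exp_le_exp.mpr
    push_cast
    have e3 : 10 * (ℓ / c) ≤ ℓ := by
      have e : 10 * (ℓ / c) = ℓ * (10 / c) := by ring
      rw [e]
      have e2 : 10 / (c : ℝ) ≤ 1 := by rw [div_le_one hc0]; exact hc10
      exact mul_le_of_le_one_right hℓpos.le e2
    linarith
  exact ⟨z, y, hz3, hy3', hyy0, hz10, by rw [← hl, ← hY]; exact hyle, by rw [← hl]; exact hlle,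
    by rw [← hl]; exact hlge, by rw [← hl]; exact hl6, by rw [← hl]; exact hlℓ,
    by rw [← hμ]; exact hμle, by rw [← hμ]; exact hμge, by rw [← hμ]; exact hμ1⟩

end Pool.Agent.Helper44.FB
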