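import Pool.Agent.Helper44.FB.Par

/-!
The choice of the parameters, assembly.
-/

namespace Pool.Agent.Helper44.FB

open Finset Filter

/-- Part (ii). -/
theorem ParB_ii {x z m y : ℕ} {l μ ℓ θ κ c : ℝ} (hθ5 : 1 / 5 < θ) (hθle : θ ≤ 1)
    (hl : l = Real.log z) (hμ : μ = Real.log y) (hz0 : (0 : ℝ) < z) (hy0 : 0 < y)
    (hm1 : 1 ≤ m) (hl6 : 6 ≤ l) (hlℓ : l ≤ ℓ) (hμ0 : 0 ≤ μ) (h1 : 1 ≤ ℓ)
    (hμle : μ ≤ κ * Real.log ℓ)
    (h7 : Real.log (2 * ℓ + 2) + Real.log ℓ + κ * Real.log ℓ ≤ ℓ / (2 * c))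
    (hlge : ℓ / (2 * c) ≤ l) (hKb : ((Nat.log 2 x + 1 : ℕ) : ℝ) ≤ 2 * ℓ + 2)
    (hlow1 : Real.exp (θ * (10 * l - μ)) * ((Nat.log y (z ^ 10)).factorial : ℝ)
      ≤ (m : ℝ) ^ (Nat.log y (z ^ 10))) :
    4 * (Real.log ((y : ℝ) ^ (Nat.log y (z ^ 10)))
      + (Nat.log y (z ^ 10)).factorial / (m : ℝ) ^ (Nat.log y (z ^ 10)) *
        (((Nat.log 2 x + 1 : ℕ) : ℝ) * z * Real.log z)) ≤ Real.log ((z ^ 80 : ℕ) : ℝ) := by
  have hypos : (0 : ℝ) < y := by exact_mod_cast hy0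
  have hzne : z ≠ 0 := by
    rintro rfl
    simp at hz0
  have hexpz : Real.exp l = z := by rw [hl]; exact Real.exp_log hz0
  have hlz10 : Real.log ((z ^ 10 : ℕ) : ℝ) = 10 * l := by
    push_cast
    rw [Real.log_pow, hl]
    norm_num
  have e1 : Real.log ((y : ℝ) ^ (Nat.log y (z ^ 10))) ≤ 10 * l := by
    rw [← hlz10]
    apply Real.log_le_log (by positivity)
    exact_mod_cast Nat.pow_log_le_self y (pow_ne_zero 10 hzne)
  have hmpos : (0 : ℝ) < m := by exact_mod_cast (by omega : 0 < m)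
  have hmp : (0 : ℝ) < (m : ℝ) ^ (Nat.log y (z ^ 10)) := by positivity
  have e2 : ((Nat.log y (z ^ 10)).factorial : ℝ) / (m : ℝ) ^ (Nat.log y (z ^ 10))
      ≤ Real.exp (-(θ * (10 * l - μ))) := by
    rw [div_le_iff₀ hmp, Real.exp_neg, inv_mul_eq_div, le_div_iff₀ (Real.exp_pos _), mul_comm]
    exact hlow1
  have e3 : (((Nat.log 2 x + 1 : ℕ) : ℝ) * z * Real.log z) ≤
      Real.exp (Real.log (2 * ℓ + 2) + l + Real.log ℓ) := by
    rw [Real.exp_add, Real.exp_add, Real.exp_log (by linarith), Real.exp_log (by linarith),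
      hexpz, ← hl]
    have : (((Nat.log 2 x + 1 : ℕ) : ℝ) * z) ≤ (2 * ℓ + 2) * z :=
      mul_le_mul_of_nonneg_right hKb hz0.le
    exact mul_le_mul this hlℓ (by linarith) (by positivity)
  have e4 : ((Nat.log y (z ^ 10)).factorial : ℝ) / (m : ℝ) ^ (Nat.log y (z ^ 10)) *
      (((Nat.log 2 x + 1 : ℕ) : ℝ) * z * Real.log z) ≤ 1 := by
    calc _ ≤ Real.exp (-(θ * (10 * l - μ))) *
          Real.exp (Real.log (2 * ℓ + 2) + l + Real.log ℓ) := by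
          apply mul_le_mul e2 e3 _ (Real.exp_pos _).le
          rw [← hl]
          have : 0 ≤ l := by linarith
          positivity
      _ = Real.exp (-(θ * (10 * l - μ)) + (Real.log (2 * ℓ + 2) + l + Real.log ℓ)) :=
          (Real.exp_add _ _).symm
      _ ≤ Real.exp 0 := by
          apply Real.exp_le_exp.mpr
          exact ParA_ii hθ5 hθle (by linarith) hμ0 hμle h7 hlge
      _ = 1 := Real.exp_zero
  have e5 : Real.log ((z ^ 80 : ℕ) : ℝ) = 80 * l := by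
    push_cast
    rw [Real.log_pow, hl]
    norm_num
  rw [e5]
  linarith

theorem params {κ : ℝ} (hκ : 5 / 4 < κ) (hκ2 : κ ≤ 3 / 2) :
    ∃ δ : ℝ, 0 < δ ∧ ∃ x0 : ℕ, ∀ x : ℕ, x0 ≤ x →
      ∃ (L₁ L₂ : Finset ℕ) (m y z n n1 nz K E H τ : ℕ),
        (∀ l ∈ L₁, l.Prime ∧ l ≤ y) ∧ (∀ l ∈ L₂, l.Prime ∧ l ≤ y) ∧ Disjoint L₁ L₂ ∧
        L₁.card = m ∧ L₂.card = m ∧ 1 ≤ m ∧ 1 ≤ n ∧ y ^ n ≤ x ∧ n1 ≤ n ∧ nz ≤ n ∧
        y ^ nz ≤ z ∧ x < 2 ^ K ∧ x < (H + 1) ^ 5 ∧ 2 ≤ E ∧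
        (∀ D, 1 ≤ D → D ≤ x → D.divisors.card ≤ τ) ∧
        3 ≤ z ∧ (y : ℝ) ≤ (Real.log z) ^ κ ∧
        (∀ g : ℕ, (g : ℝ) < (x : ℝ) ^ δ → 4 * g * nz.factorial ≤ m ^ nz) ∧
        4 * (Real.log ((y : ℝ) ^ n1) + n1.factorial / (m : ℝ) ^ n1 * (K * z * Real.log z))
          ≤ Real.log E ∧
        64 * E * H * n.factorial * (1 + 2 * τ ^ 2) < m ^ n := by
  -- the constants
  have hκ0 : 0 < κ := by linarith
  have hinv : 1 / κ < 4 / 5 := by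
    rw [div_lt_div_iff₀ hκ0 (by norm_num)]; linarith
  have hinv0 : 0 < 1 / κ := by positivity
  obtain ⟨γ, hγ⟩ : ∃ γ : ℝ, γ = 4 / 5 - 1 / κ := ⟨_, rfl⟩
  have hγ0 : 0 < γ := by rw [hγ]; linarith
  have hγ1 : γ < 4 / 5 := by rw [hγ]; linarith
  obtain ⟨η, hη⟩ : ∃ η : ℝ, η = γ / 16 := ⟨_, rfl⟩
  have hη0 : 0 < η := by rw [hη]; linarith
  obtain ⟨θ, hθ⟩ : ∃ θ : ℝ, θ = 1 - 1 / κ - 2 * η := ⟨_, rfl⟩
  have hθ1 : 1 / 5 + 7 / 8 * γ = θ := by rw [hθ, hη, hγ]; ring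
  have hθ5 : 1 / 5 < θ := by linarith
  have hθ0 : 0 < θ := by linarith
  have hθle : θ ≤ 1 := by rw [hθ]; linarith
  obtain ⟨c, hc⟩ : ∃ c : ℕ, 320 / γ ≤ c := exists_nat_ge _
  have hc320 : 320 ≤ c * γ := by
    rwa [div_le_iff₀ hγ0] at hc
  have hc10 : (10 : ℝ) ≤ c := by
    have : (320 : ℝ) ≤ c * 1 := by
      calc (320 : ℝ) ≤ c * γ := hc320
        _ ≤ c * 1 := mul_le_mul_of_nonneg_left (by linarith) (Nat.cast_nonneg c)
    linarith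
  have hc0 : (0 : ℝ) < c := by linarith
  obtain ⟨C, hC1, hC⟩ := Pool.Agent.Helper89.SLE.divisor_bound η hη0
  obtain ⟨y0, hy0⟩ := two_sets hη0
  obtain ⟨δ, hδ⟩ : ∃ δ : ℝ, δ = θ / (8 * c) := ⟨_, rfl⟩
  have hδ0 : 0 < δ := by rw [hδ]; positivity
  refine ⟨δ, hδ0, ?_⟩
  have ev := ParA_ev (C := C) (y0 := (y0 : ℝ)) hκ0 hγ0 hη0 hθ0 hc0 hδ
  obtain ⟨ℓ0, hℓ0⟩ := eventually_atTop.mp ev
  clear ev
  have hT : Tendsto (fun x : ℕ => Real.log (x : ℝ)) atTop atTop :=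
    Real.tendsto_log_atTop.comp tendsto_natCast_atTop_atTop
  obtain ⟨x0, hx0⟩ := eventually_atTop.mp (hT.eventually_ge_atTop ℓ0)
  refine ⟨max x0 1, fun x hx => ?_⟩
  have hxx : x0 ≤ x := le_trans (le_max_left _ _) hx
  have hx1 : 1 ≤ x := le_trans (le_max_right _ _) hx
  have hxpos : (0 : ℝ) < x := by exact_mod_cast (by omega : 0 < x)
  obtain ⟨ℓ, hℓ⟩ : ∃ ℓ : ℝ, ℓ = Real.log x := ⟨_, rfl⟩
  obtain ⟨h1, h3, h4, h5, h6, h7, h8⟩ := hℓ0 ℓ (by rw [hℓ]; exact hx0 x hxx)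
  clear hℓ0 hT hx0
  have hℓpos : 0 < ℓ := by linarith
  have hexpx : Real.exp ℓ = x := by rw [hℓ]; exact Real.exp_log hxpos
  have hl2' : 1 / 2 < Real.log 2 := by
    have := Real.log_two_gt_d9; linarith
  obtain ⟨z, y, hz3, hy3, hyy0, hz10', hyκ, hlle, hlge, hl6, hlℓ, hμle, hμge, hμ1⟩ :=
    Par_zy (κ := κ) (by linarith) hc10 h4 y0 h3
  have hz0 : (0 : ℝ) < z := by exact_mod_cast (by omega : 0 < z)
  have hypos : (0 : ℝ) < y := by exact_mod_cast (by omega : 0 < y)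
  obtain ⟨l, hl⟩ : ∃ l : ℝ, l = Real.log z := ⟨_, rfl⟩
  obtain ⟨μ, hμ⟩ : ∃ μ : ℝ, μ = Real.log y := ⟨_, rfl⟩
  rw [← hl] at hlle hlge hl6 hlℓ
  rw [← hμ] at hμle hμge hμ1
  have hexpz : Real.exp l = z := by rw [hl]; exact Real.exp_log hz0
  have hexpy : Real.exp μ = y := by rw [hμ]; exact Real.exp_log hypos
  -- the sets of primes
  obtain ⟨L₁, L₂, m, hL1, hL2, hdisj, hc1, hc2, hm⟩ := hy0 y hyy0
  have hKE : ∀ k : ℕ, (k : ℝ) ≤ ℓ → (k : ℝ) * (y : ℝ) ^ θ ≤ m := by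
    intro k hk
    refine le_trans ?_ hm
    have e1 : (y : ℝ) ^ (1 - η) = (y : ℝ) ^ (1 / κ + η) * (y : ℝ) ^ θ := by
      rw [← Real.rpow_add hypos]
      congr 1
      rw [hθ]; ring
    rw [e1]
    apply mul_le_mul_of_nonneg_right _ (by positivity)
    refine hk.trans ?_
    rw [Real.rpow_def_of_pos hypos, ← hμ]
    rw [← Real.log_le_iff_le_exp hℓpos]
    refine h5.trans ?_
    rw [mul_comm μ]
    exact mul_le_mul_of_nonneg_left hμge (by positivity)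
  have hm1 : 1 ≤ m := by
    have : (1 : ℝ) ≤ m := by
      have e := hKE 1 (by push_cast; linarith)
      have e2 : (1 : ℝ) ≤ (y : ℝ) ^ θ :=
        Real.one_le_rpow (by exact_mod_cast (by omega : 1 ≤ y)) hθ0.le
      push_cast at e
      linarith
    exact_mod_cast this
  -- bound for logarithms in base `y`
  have hklog : ∀ t : ℕ, 1 ≤ t → t ≤ x → ((Nat.log y t : ℕ) : ℝ) ≤ ℓ := by
    intro t ht htx
    have e1 : y ^ (Nat.log y t) ≤ t := Nat.pow_log_le_self y (by omega)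
    have e2 : (y : ℝ) ^ (Nat.log y t) ≤ x := by exact_mod_cast e1.trans htx
    have e3 := Real.log_le_log (by positivity) e2
    rw [Real.log_pow, ← hℓ, ← hμ] at e3
    have e4 : (0 : ℝ) ≤ (Nat.log y t : ℕ) := Nat.cast_nonneg _
    exact (le_mul_of_one_le_right e4 hμ1).trans e3
  have hz10 : z ^ 10 ≤ x := by
    have : ((z ^ 10 : ℕ) : ℝ) ≤ x := by
      push_cast
      rw [← hexpx]
      exact hz10'
    exact_mod_cast this
  have hzx : z ≤ x := le_trans (Nat.le_self_pow (by norm_num) z) hz10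
  have hyx : y ≤ x := by
    have : (y : ℝ) ≤ x := by
      rw [← hexpy, ← hexpx]
      apply Real.exp_le_exp.mpr
      have e2 : 0 ≤ Real.log (2 * ℓ + 2) := Real.log_nonneg (by linarith)
      have e3 : 0 ≤ Real.log ℓ := Real.log_nonneg h1
      linarith
    exact_mod_cast this
  have hzt : 1 ≤ z ^ 10 := Nat.one_le_pow _ _ (by omega)
  have hlowz := ParA_low (k := Nat.log y z) hθ0.le (by omega) (by omega : 1 ≤ z) rfl
    (hKE _ (hklog z (by omega) hzx))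
  have hlow1 := ParA_low (k := Nat.log y (z ^ 10)) hθ0.le (by omega) hzt rfl
    (hKE _ (hklog _ hzt hz10))
  have hlown := ParA_low (k := Nat.log y x) hθ0.le (by omega) hx1 rfl
    (hKE _ (hklog x hx1 le_rfl))
  rw [← hl, ← hμ] at hlowz
  have hlz10 : Real.log ((z ^ 10 : ℕ) : ℝ) = 10 * l := by
    push_cast
    rw [Real.log_pow, hl]
    norm_num
  rw [hlz10, ← hμ] at hlow1
  rw [← hℓ, ← hμ] at hlown
  have hKb : ((Nat.log 2 x + 1 : ℕ) : ℝ) ≤ 2 * ℓ + 2 := by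
    have e1 : 2 ^ (Nat.log 2 x) ≤ x := Nat.pow_log_le_self 2 (by omega)
    have e2 : (2 : ℝ) ^ (Nat.log 2 x) ≤ x := by exact_mod_cast e1
    have e3 := Real.log_le_log (by positivity) e2
    rw [Real.log_pow, ← hℓ] at e3
    have e4 : (0 : ℝ) ≤ (Nat.log 2 x : ℕ) := Nat.cast_nonneg _
    have e5 := mul_le_mul_of_nonneg_left hl2'.le e4
    push_cast
    linarith
  refine ⟨L₁, L₂, m, y, z, Nat.log y x, Nat.log y (z ^ 10), Nat.log y z, Nat.log 2 x + 1,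
    z ^ 80, ⌊(x : ℝ) ^ ((1 : ℝ) / 5)⌋₊, ⌊C * (x : ℝ) ^ η⌋₊, hL1, hL2, hdisj, hc1, hc2, hm1,
    ?_, ?_, ?_, ?_, ?_, ?_, ?_, ?_, ?_, hz3, hyκ, ?_, ?_, ?_⟩
  · exact Nat.log_pos (by omega) hyx
  · exact Nat.pow_log_le_self y (by omega)
  · exact Nat.log_mono_right hz10
  · exact Nat.log_mono_right hzx
  · exact Nat.pow_log_le_self y (by omega)
  · exact Nat.lt_pow_succ_log_self (by norm_num) x
  · have e := Nat.lt_floor_add_one ((x : ℝ) ^ ((1 : ℝ) / 5))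
    have e2 : (x : ℝ) < (((⌊(x : ℝ) ^ ((1 : ℝ) / 5)⌋₊ : ℕ) : ℝ) + 1) ^ 5 := by
      calc (x : ℝ) = ((x : ℝ) ^ ((1 : ℝ) / 5)) ^ 5 := by
            rw [← Real.rpow_natCast, ← Real.rpow_mul hxpos.le]
            norm_num
        _ < _ := pow_lt_pow_left₀ e (by positivity) (by norm_num)
    exact_mod_cast e2
  · calc 2 ≤ z := by omega
      _ ≤ z ^ 80 := Nat.le_self_pow (by norm_num) z
  · intro D hD hDx
    apply Nat.le_floor
    refine (hC D (by omega)).trans ?_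
    apply mul_le_mul_of_nonneg_left _ (by linarith)
    exact Real.rpow_le_rpow (by positivity) (by exact_mod_cast hDx) hη0.le
  · -- (i)
    intro g hg
    have e1 : (x : ℝ) ^ δ = Real.exp (δ * ℓ) := by
      rw [Real.rpow_def_of_pos hxpos, ← hℓ, mul_comm]
    rw [e1] at hg
    have e2 : 4 * (g : ℝ) ≤ Real.exp (θ * (l - μ)) := by
      calc 4 * (g : ℝ) ≤ 4 * Real.exp (δ * ℓ) := by linarith
        _ = Real.exp (Real.log 4 + δ * ℓ) := by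
            rw [Real.exp_add, Real.exp_log (by norm_num)]
        _ ≤ _ := by
            apply Real.exp_le_exp.mpr
            refine h6.trans ?_
            apply mul_le_mul_of_nonneg_left _ hθ0.le
            linarith
    have e3 : ((4 * g * (Nat.log y z).factorial : ℕ) : ℝ) ≤ ((m ^ (Nat.log y z) : ℕ) : ℝ) := by
      push_cast
      calc 4 * (g : ℝ) * (Nat.log y z).factorial
          ≤ Real.exp (θ * (l - μ)) * (Nat.log y z).factorial :=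
            mul_le_mul_of_nonneg_right e2 (by positivity)
        _ ≤ _ := hlowz
    exact_mod_cast e3
  · -- (ii)
    exact ParB_ii hθ5 hθle hl hμ hz0 (by omega) hm1 hl6 hlℓ (by linarith) h1 hμle h7 hlge hKb hlow1
  · -- (iii)
    have e1 : ((⌊(x : ℝ) ^ ((1 : ℝ) / 5)⌋₊ : ℕ) : ℝ) ≤ Real.exp (ℓ / 5) := by
      refine (Nat.floor_le (by positivity)).trans ?_
      rw [Real.rpow_def_of_pos hxpos, ← hℓ]
      apply le_of_eq
      congr 1
      ring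
    have e2 : ((⌊C * (x : ℝ) ^ η⌋₊ : ℕ) : ℝ) ≤ C * Real.exp (η * ℓ) := by
      refine (Nat.floor_le (by positivity)).trans ?_
      rw [Real.rpow_def_of_pos hxpos, ← hℓ, mul_comm ℓ η]
    have e6 := ParA_exp hexpz hC1 hη0.le hℓpos.le e1 e2
      (ParA_iii (S64 := Real.log 64) (S3 := Real.log 3) (SC := Real.log C) hθle hθ1 hγ0 hη
        (by linarith) hμle hc0 hc320 hℓpos hlle h8)
    have e7 : ((64 * z ^ 80 * ⌊(x : ℝ) ^ ((1 : ℝ) / 5)⌋₊ * (Nat.log y x).factorial *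
        (1 + 2 * ⌊C * (x : ℝ) ^ η⌋₊ ^ 2) : ℕ) : ℝ) < ((m ^ (Nat.log y x) : ℕ) : ℝ) := by
      push_cast
      calc (64 : ℝ) * (z : ℝ) ^ 80 * (⌊(x : ℝ) ^ ((1 : ℝ) / 5)⌋₊ : ℕ) * (Nat.log y x).factorial *
            (1 + 2 * ((⌊C * (x : ℝ) ^ η⌋₊ : ℕ) : ℝ) ^ 2)
          = (64 * (z : ℝ) ^ 80 * (⌊(x : ℝ) ^ ((1 : ℝ) / 5)⌋₊ : ℕ) *
            (1 + 2 * ((⌊C * (x : ℝ) ^ η⌋₊ : ℕ) : ℝ) ^ 2)) * (Nat.log y x).factorial := by ring
        _ < Real.exp (θ * (ℓ - μ)) * (Nat.log y x).factorial := by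
            apply mul_lt_mul_of_pos_right e6
            exact_mod_cast Nat.factorial_pos _
        _ ≤ _ := hlown
    exact_mod_cast e7

end Pool.Agent.Helper44.FB
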