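import Pool.Agent.Helper44.FB.Coll
import Pool.Agent.Helper44.FB.CollSum

/-!
The average of the logarithm of the smooth part.

PROOF. For a pair `c = (a, b)` with `D = dd c`: `log (sm z D) = sum_(p ≤ z prime) v_p(D) log p`; if `D ≥ 1`,
`v_p(D) = #{1 ≤ k ≤ K : p^k ∣ D}` (as `D < 2^K`), and `p^k ∣ D` iff `pr a ≡ pr b mod p^k`; if `D = 0` then
`sm z 0 = 1`. Sum over `c`:
`sum_c log (sm z (dd c)) ≤ sum_(p ≤ z) sum_(k ≤ K) log p * cross L₁ L₂ n (p^k)`, then `cross_prime` and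
`coll_sum` for `L₁` and `L₂` (`m^(2 (n - n1)) * m^(2 n1) = m^(2 n)`, `m^(2 (n - n1)) * m^n1 = m^(2 n) / m^n1`).
-/

namespace Pool.Agent.Helper44.FB

open Finset

private theorem Smooth_dd_modEq {n : ℕ} (c : (Fin n → ℕ) × (Fin n → ℕ)) {q : ℕ}
    (h : q ∣ dd c) : pr c.1 ≡ pr c.2 [MOD q] := by
  rcases le_total (pr c.1) (pr c.2) with h1 | h1
  · refine (Nat.modEq_iff_dvd' h1).2 ?_
    have h2 : dd c = pr c.2 - pr c.1 := by
      unfold dd
      rw [Nat.sub_eq_zero_of_le h1, zero_add]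
    rwa [h2] at h
  · refine ((Nat.modEq_iff_dvd' h1).2 ?_).symm
    have h2 : dd c = pr c.1 - pr c.2 := by
      unfold dd
      rw [Nat.sub_eq_zero_of_le h1, add_zero]
    rwa [h2] at h

private theorem Smooth_pr_le {L : Finset ℕ} {y n : ℕ} (hy : ∀ l ∈ L, l ≤ y)
    {a : Fin n → ℕ} (ha : a ∈ tup L n) : pr a ≤ y ^ n := by
  have h1 : ∀ i, a i ∈ L := fun i => Fintype.mem_piFinset.1 ha i
  calc pr a = ∏ i, a i := rfl
    _ ≤ ∏ _i : Fin n, y := Finset.prod_le_prod' (fun i _ => hy _ (h1 i))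
    _ = y ^ n := by simp

private theorem Smooth_dd_le {n : ℕ} (c : (Fin n → ℕ) × (Fin n → ℕ)) {Y : ℕ}
    (h1 : pr c.1 ≤ Y) (h2 : pr c.2 ≤ Y) : dd c ≤ Y := by
  unfold dd
  omega

private theorem Smooth_log_sm (z D : ℕ) :
    Real.log (sm z D) = ∑ p ∈ (Finset.Icc 1 z).filter Nat.Prime,
      (D.factorization p : ℝ) * Real.log p := by
  unfold sm
  push_cast
  rw [Real.log_prod (fun p hp => ?_)]
  · refine Finset.sum_congr rfl (fun p _ => ?_)
    rw [Real.log_pow]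
  · have : p ≠ 0 := (Finset.mem_filter.1 hp).2.ne_zero
    positivity

private theorem Smooth_fact_le {n : ℕ} (c : (Fin n → ℕ) × (Fin n → ℕ)) {K p : ℕ}
    (hp : p.Prime) (hK : dd c < 2 ^ K) :
    ((dd c).factorization p : ℝ) ≤
      ∑ k ∈ Icc 1 K, (if pr c.1 ≡ pr c.2 [MOD (p ^ k)] then (1 : ℝ) else 0) := by
  rcases Nat.eq_zero_or_pos (dd c) with h0 | h0
  · rw [h0]
    simp only [Nat.factorization_zero, Finsupp.coe_zero, Pi.zero_apply, Nat.cast_zero]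
    exact Finset.sum_nonneg (fun k _ => by split_ifs <;> norm_num)
  · have hv : (dd c).factorization p ≤ K := by
      by_contra hlt
      push Not at hlt
      have h1 : p ^ (dd c).factorization p ≤ dd c :=
        Nat.le_of_dvd h0 (Nat.ordProj_dvd _ _)
      have h2 : 2 ^ K ≤ p ^ (dd c).factorization p :=
        le_trans (Nat.pow_le_pow_left hp.two_le K)
          (Nat.pow_le_pow_right hp.pos hlt.le)
      omega
    have hsub : Icc 1 ((dd c).factorization p) ⊆ Icc 1 K := Finset.Icc_subset_Icc le_rfl hv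
    have h3 : ((dd c).factorization p : ℝ)
        = ∑ k ∈ Icc 1 ((dd c).factorization p), (1 : ℝ) := by
      simp
    rw [h3]
    calc ∑ k ∈ Icc 1 ((dd c).factorization p), (1 : ℝ)
        = ∑ k ∈ Icc 1 ((dd c).factorization p),
          (if pr c.1 ≡ pr c.2 [MOD (p ^ k)] then (1 : ℝ) else 0) := by
          refine Finset.sum_congr rfl (fun k hk => ?_)
          have h4 : p ^ k ∣ dd c :=
            dvd_trans (pow_dvd_pow p (Finset.mem_Icc.1 hk).2) (Nat.ordProj_dvd _ _)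
          rw [if_pos (Smooth_dd_modEq c h4)]
      _ ≤ _ := Finset.sum_le_sum_of_subset_of_nonneg hsub
          (fun k _ _ => by split_ifs <;> norm_num)

theorem sum_log_sm {L₁ L₂ : Finset ℕ} (h1 : ∀ l ∈ L₁, l.Prime) (h2 : ∀ l ∈ L₂, l.Prime)
    (hd : Disjoint L₁ L₂) {m : ℕ} (hm : 1 ≤ m) (hc1 : L₁.card = m) (hc2 : L₂.card = m) {y : ℕ}
    (hy1 : 1 ≤ y) (hy : ∀ l ∈ L₁ ∪ L₂, l ≤ y) {n1 n : ℕ} (h : n1 ≤ n) (z : ℕ) {K : ℕ}
    (hK : y ^ n < 2 ^ K) :
    ∑ c ∈ (tup L₁ n) ×ˢ (tup L₂ n), Real.log (sm z (dd c)) ≤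
      (m : ℝ) ^ (2 * n) * (Real.log ((y : ℝ) ^ n1)
        + n1.factorial / (m : ℝ) ^ n1 * (K * z * Real.log z)) := by
  have hyL1 : ∀ l ∈ L₁, l ≤ y := fun l hl => hy l (Finset.mem_union_left _ hl)
  have hyL2 : ∀ l ∈ L₂, l ≤ y := fun l hl => hy l (Finset.mem_union_right _ hl)
  have hlogp : ∀ p ∈ (Icc 1 z).filter Nat.Prime, 0 ≤ Real.log (p : ℝ) := by
    intro p hp
    exact Real.log_natCast_nonneg p
  -- step 1
  have s1 : ∑ c ∈ (tup L₁ n) ×ˢ (tup L₂ n), Real.log (sm z (dd c)) ≤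
      ∑ p ∈ (Icc 1 z).filter Nat.Prime, ∑ k ∈ Icc 1 K,
        Real.log p * (cross L₁ L₂ n (p ^ k) : ℝ) := by
    calc ∑ c ∈ (tup L₁ n) ×ˢ (tup L₂ n), Real.log (sm z (dd c))
        ≤ ∑ c ∈ (tup L₁ n) ×ˢ (tup L₂ n), ∑ p ∈ (Icc 1 z).filter Nat.Prime,
          ∑ k ∈ Icc 1 K, Real.log p *
            (if pr c.1 ≡ pr c.2 [MOD (p ^ k)] then (1 : ℝ) else 0) := by
          refine Finset.sum_le_sum (fun c hc => ?_)
          rw [Smooth_log_sm]
          refine Finset.sum_le_sum (fun p hp => ?_)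
          rw [← Finset.mul_sum, mul_comm]
          refine mul_le_mul_of_nonneg_left ?_ (hlogp p hp)
          refine Smooth_fact_le c (Finset.mem_filter.1 hp).2 ?_
          have hc' := Finset.mem_product.1 hc
          exact lt_of_le_of_lt (Smooth_dd_le c (Smooth_pr_le hyL1 hc'.1)
            (Smooth_pr_le hyL2 hc'.2)) hK
      _ = _ := by
          rw [Finset.sum_comm]
          refine Finset.sum_congr rfl (fun p _ => ?_)
          rw [Finset.sum_comm]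
          refine Finset.sum_congr rfl (fun k _ => ?_)
          rw [← Finset.mul_sum]
          congr 1
          unfold cross
          rw [Finset.sum_boole]
  -- step 2
  have s2 : ∑ p ∈ (Icc 1 z).filter Nat.Prime, ∑ k ∈ Icc 1 K,
        Real.log p * (cross L₁ L₂ n (p ^ k) : ℝ) ≤
      ∑ p ∈ (Icc 1 z).filter Nat.Prime, ∑ k ∈ Icc 1 K,
        ((m : ℝ) ^ (2 * (n - n1)) / 2) * (Real.log p * (coll L₁ n1 (p ^ k) : ℝ)
          + Real.log p * (coll L₂ n1 (p ^ k) : ℝ)) := by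
    refine Finset.sum_le_sum (fun p hp => Finset.sum_le_sum (fun k hk => ?_))
    have hcp := cross_prime h1 h2 hd hc1 hc2 (Finset.mem_filter.1 hp).2
      (Nat.lt_of_lt_of_le Nat.zero_lt_one (Finset.mem_Icc.1 hk).1) h
    have hcp' : (2 : ℝ) * (cross L₁ L₂ n (p ^ k) : ℝ) ≤
        (m : ℝ) ^ (2 * (n - n1)) * ((coll L₁ n1 (p ^ k) : ℝ) + (coll L₂ n1 (p ^ k) : ℝ)) := by
      exact_mod_cast hcp
    have h0 := hlogp p hp
    calc Real.log p * (cross L₁ L₂ n (p ^ k) : ℝ)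
        = Real.log p / 2 * (2 * (cross L₁ L₂ n (p ^ k) : ℝ)) := by ring
      _ ≤ Real.log p / 2 * ((m : ℝ) ^ (2 * (n - n1)) *
          ((coll L₁ n1 (p ^ k) : ℝ) + (coll L₂ n1 (p ^ k) : ℝ))) :=
          mul_le_mul_of_nonneg_left hcp' (by positivity)
      _ = _ := by ring
  have s3 : ∑ p ∈ (Icc 1 z).filter Nat.Prime, ∑ k ∈ Icc 1 K,
        ((m : ℝ) ^ (2 * (n - n1)) / 2) * (Real.log p * (coll L₁ n1 (p ^ k) : ℝ)
          + Real.log p * (coll L₂ n1 (p ^ k) : ℝ))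
      = ((m : ℝ) ^ (2 * (n - n1)) / 2) *
        ((∑ p ∈ (Icc 1 z).filter Nat.Prime, ∑ k ∈ Icc 1 K,
            Real.log p * (coll L₁ n1 (p ^ k) : ℝ))
          + ∑ p ∈ (Icc 1 z).filter Nat.Prime, ∑ k ∈ Icc 1 K,
            Real.log p * (coll L₂ n1 (p ^ k) : ℝ)) := by
    simp only [← Finset.mul_sum, Finset.sum_add_distrib]
  have c1 := coll_sum h1 hy1 hyL1 n1 z K
  have c2 := coll_sum h2 hy1 hyL2 n1 z K
  rw [hc1] at c1
  rw [hc2] at c2
  have hm0 : (0 : ℝ) < m := by exact_mod_cast hm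
  have hfin : ((m : ℝ) ^ (2 * (n - n1)) / 2) *
      (((m : ℝ) ^ (2 * n1) * Real.log ((y : ℝ) ^ n1)
        + (m : ℝ) ^ n1 * n1.factorial * (K * z * Real.log z))
      + ((m : ℝ) ^ (2 * n1) * Real.log ((y : ℝ) ^ n1)
        + (m : ℝ) ^ n1 * n1.factorial * (K * z * Real.log z)))
      = (m : ℝ) ^ (2 * n) * (Real.log ((y : ℝ) ^ n1)
        + n1.factorial / (m : ℝ) ^ n1 * (K * z * Real.log z)) := by
    have e1 : (m : ℝ) ^ (2 * n) = (m : ℝ) ^ (2 * (n - n1)) * (m : ℝ) ^ (2 * n1) := by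
      rw [← pow_add]
      congr 1
      omega
    have e2 : (m : ℝ) ^ (2 * n1) = (m : ℝ) ^ n1 * (m : ℝ) ^ n1 := by
      rw [← pow_add]
      congr 1
      omega
    rw [e1, e2]
    have hne : (m : ℝ) ^ n1 ≠ 0 := (pow_pos hm0 _).ne'
    field_simp
    ring
  calc ∑ c ∈ (tup L₁ n) ×ˢ (tup L₂ n), Real.log (sm z (dd c))
      ≤ _ := s1
    _ ≤ _ := s2
    _ = _ := s3
    _ ≤ ((m : ℝ) ^ (2 * (n - n1)) / 2) *
      (((m : ℝ) ^ (2 * n1) * Real.log ((y : ℝ) ^ n1)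
        + (m : ℝ) ^ n1 * n1.factorial * (K * z * Real.log z))
      + ((m : ℝ) ^ (2 * n1) * Real.log ((y : ℝ) ^ n1)
        + (m : ℝ) ^ n1 * n1.factorial * (K * z * Real.log z))) :=
        mul_le_mul_of_nonneg_left (add_le_add c1 c2) (by positivity)
    _ = _ := hfin

end Pool.Agent.Helper44.FB
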